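import Pool.Agent.W559.Et.Stm5

set_option autoImplicit false
set_option linter.unusedSectionVars false

open MvPolynomial AlgebraicGeometry CategoryTheory TensorProduct

universe u

namespace Pool.Agent.W559.Et

open Pool.Agent.H920R2

/-- The structure morphism of the spectrum of a subalgebra. -/
noncomputable def strB {k B : Type u} [Field k] [CommRing B] [Algebra k B] (C : Subalgebra k B) :
    Spec (CommRingCat.of C) ⟶ Spec (CommRingCat.of k) :=
  Spec.map (CommRingCat.ofHom (algebraMap k C))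

lemma equiv_pow_coe {k B : Type u} [Field k] [CommRing B] [Algebra k B] (σ : B ≃ₐ[k] B) (n : ℕ) :
    ((σ ^ n : B ≃ₐ[k] B) : B →ₐ[k] B) = (σ : B →ₐ[k] B) ^ n := by
  induction n with
  | zero => rfl
  | succ n ih =>
    rw [pow_succ, pow_succ, ← ih]
    rfl

lemma equiv_pow_iter {k B : Type u} [Field k] [CommRing B] [Algebra k B] (σ : B ≃ₐ[k] B) (n : ℕ)
    (b : B) : (σ ^ n) b = σ^[n] b := by
  induction n generalizing b with
  | zero => rfl
  | succ n ih => rw [pow_succ, Function.iterate_succ_apply, ← ih]; rfl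

section

variable {k : Type u} [Field k] {p m : ℕ} (hp : p.Prime) (hpk : (p : k) = 0) (hm : 0 < m)
  {ω : k} (hω : IsPrimitiveRoot ω m)

include hω hm in
lemma cast_ne : (m : k) ≠ 0 := by
  have : NeZero m := ⟨hm.ne'⟩
  have := hω.neZero'
  exact NeZero.ne _

include hp hpk hm hω in
/-- The affine case. -/
theorem aff_res (haff : AffMainStm.{u}) (B : Type u) [CommRing B] [IsDomain B] [Algebra k B]
    [Algebra.Smooth k B] (σ : B ≃ₐ[k] B) (hσ : σ ^ (p ^ 2 * m) = 1)
    (h1 : LocLin ((σ ^ m : B ≃ₐ[k] B) : B →ₐ[k] B))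
    (h2 : LocLin ((σ ^ (m * p) : B ≃ₐ[k] B) : B →ₐ[k] B)) :
    IsVariety (strB (fixedAlg σ)) ∧ HasResolution (strB (fixedAlg σ)) := by
  have hσ' : ∀ b, σ^[p * p * m] b = b := by
    intro b
    rw [← equiv_pow_iter, ← pow_two, hσ]
    rfl
  have hft : Algebra.FiniteType k (fixedAlg σ) := finiteType_fixedAlg σ (p * p * m)
    (Nat.mul_pos (Nat.mul_pos hp.pos hp.pos) hm) hσ'
  refine ⟨isVariety_spec, ?_⟩
  rw [equiv_pow_coe] at h1 h2
  exact haff k B inferInstance σ p m hp hpk (cast_ne hm hω) ⟨ω, hω⟩ hσ' h1 h2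

include hp hpk hm hω in
/-- Permutations of the factors of a power. -/
theorem perm_res (haff : AffMainStm.{u}) (hperm : AffPermStm.{u}) (A : Type u) [CommRing A]
    [IsDomain A] [Algebra k A] [Algebra.Smooth k A] (n : ℕ) [IsDomain (⨂[k] _ : Fin n, A)]
    (σ : (⨂[k] _ : Fin n, A) ≃ₐ[k] (⨂[k] _ : Fin n, A)) (π : Equiv.Perm (Fin n))
    (hσ : ∀ i a, σ (PiTensorProduct.singleAlgHom (R := k) (A := fun _ : Fin n => A) i a) =
      PiTensorProduct.singleAlgHom (R := k) (A := fun _ : Fin n => A) (π i) a)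
    (hπ : π ^ (p ^ 2 * m) = 1) :
    IsVariety (strB (fixedAlg σ)) ∧ HasResolution (strB (fixedAlg σ)) := by
  have hj := isCoprod_pi (k := k) (A := fun _ : Fin n => A)
  have hsm : Algebra.Smooth k (⨂[k] _ : Fin n, A) := by
    have h1 : Algebra.FormallySmooth k (⨂[k] _ : Fin n, A) :=
      coprod_formallySmooth hj fun _ => inferInstance
    have h2 : Algebra.FiniteType k (⨂[k] _ : Fin n, A) := coprod_finiteType hj fun _ => inferInstance
    exact ⟨h1, Algebra.FinitePresentation.of_finiteType.1 inferInstance⟩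
  have hpow : ∀ (r : ℕ) i a,
      (σ ^ r) (PiTensorProduct.singleAlgHom (R := k) (A := fun _ : Fin n => A) i a) =
      PiTensorProduct.singleAlgHom (R := k) (A := fun _ : Fin n => A) ((π ^ r) i) a := by
    intro r
    induction r with
    | zero => intro i a; rfl
    | succ r ih =>
      intro i a
      rw [pow_succ, pow_succ]
      change (σ ^ r) (σ _) = _
      rw [hσ, ih]
      rfl
  have hσN : σ ^ (p ^ 2 * m) = 1 := by
    apply AlgEquiv.ext
    intro x
    rw [equiv_pow_iter]
    exact perm_iter hπ hσ x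
  exact aff_res hp hpk hm hω haff _ σ hσN
    (hperm k A n inferInstance (σ ^ m) (π ^ m) (hpow m))
    (hperm k A n inferInstance (σ ^ (m * p)) (π ^ (m * p)) (hpow (m * p)))

end

end Pool.Agent.W559.Et
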