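import Pool.Agent.W559.Et.Stm5

/-!
Statements of the lemmas of the project Et, sixth part: quotients of smooth projective varieties.
-/

set_option autoImplicit false
set_option linter.unusedSectionVars false

open MvPolynomial AlgebraicGeometry CategoryTheory TensorProduct

universe u v w

namespace Pool.Agent.W559.Et

open Pool.Agent.W559.Mg

section

variable {k L : Type u} [Field k] [Field L] [Algebra k L]

/-- The local ring of a prime ideal of a subalgebra. -/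
def locR (A : Subalgebra k L) (q : Ideal A) (hq : q.IsPrime) : Subalgebra k L where
  carrier := {x | ∃ a b : A, b ∉ q ∧ x * b = a}
  mul_mem' := by
    rintro x y ⟨a, b, hb, h⟩ ⟨a', b', hb', h'⟩
    refine ⟨a * a', b * b', hq.mul_notMem hb hb', ?_⟩
    push_cast
    rw [← h, ← h']
    ring
  add_mem' := by
    rintro x y ⟨a, b, hb, h⟩ ⟨a', b', hb', h'⟩
    refine ⟨a * b' + a' * b, b * b', hq.mul_notMem hb hb', ?_⟩
    push_cast
    rw [← h, ← h']
    ring
  algebraMap_mem' r := ⟨algebraMap k A r, 1, fun h => hq.ne_top ((Ideal.eq_top_iff_one q).2 h), by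
    simp⟩

/-- The endomorphism `ρ` is linear in etale coordinates at the point with local ring `O`: if `ρ`
maps `O` to itself and acts trivially on the residue field, then there are elements `y i` of `O`
whose linear span is stable under `ρ` such that `O` is formally etale over the polynomial ring in
the `y i`. -/
def LinAt (ρ : L →ₐ[k] L) (O : Subalgebra k L) : Prop :=
  (∀ x ∈ O, ρ x ∈ O ∧ ∀ x' ∈ O, (ρ x - x) * x' ≠ 1) →
    ∃ (n : ℕ) (y : Fin n → O),
      ((aeval y : MvPolynomial (Fin n) k →ₐ[k] O).toRingHom).FormallyEtale ∧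
      ∀ i, ρ (y i) ∈ Submodule.span k (Set.range fun j => (y j : L))

end

/-- Spreading out. -/
def SpreadStm : Prop := ∀ (k L : Type u) [Field k] [Field L] [Algebra k L] (B : Subalgebra k L),
  Algebra.Smooth k B → ∀ (ρ : L →ₐ[k] L) (N : ℕ), 0 < N → (∀ x, ρ^[N] x = x) →
  (∀ x ∈ B, ρ x ∈ B) → (∀ (q : Ideal B) (hq : q.IsPrime), LinAt ρ (locR B q hq)) → LL ρ B

/-- The local rings of the chart of a form. -/
def PtStm : Prop := ∀ (k L : Type u) [Field k] [Field L] [Algebra k L] (l : ℕ)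
  (z : Fin (l + 1) → L), (∀ i, z i ≠ 0) → ∀ (d : ℕ), 1 ≤ d → ∀ G ∈ H920R2.FS k z d, G ≠ 0 →
  ∀ (q : Ideal (H920R2.AF k z d G)) (hq : q.IsPrime), ∃ i, ∃ (q' : Ideal (H920R2.AZ k z i))
    (hq' : q'.IsPrime), locR (H920R2.AF k z d G) q hq = locR (H920R2.AZ k z i) q' hq'

/-- The affine atlas of a smooth projective variety with a linearized action. -/
def GenAtlasStm : Prop := ∀ (k L : Type u) [Field k] [Field L] [Algebra k L] (l : ℕ)
  (z : Fin (l + 1) → L), (∀ i, z i ≠ 0) → (∀ i, Algebra.Smooth k (H920R2.AZ k z i)) →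
  IntermediateField.adjoin k (Set.range fun j => z j / z 0) = ⊤ →
  ∀ (σ : L →ₐ[k] L) (N : ℕ), 0 < N → (∀ x, σ^[N] x = x) →
  (∀ i, σ (z i) ∈ Submodule.span k (Set.range z)) →
  ∀ (γ h : L →ₐ[k] L) (a b : ℕ), γ = σ ^ a → h = σ ^ b →
  (∀ x, (γ x = x ∧ h x = x) ↔ σ x = x) → ∀ Kf : Subfield L, (∀ x, x ∈ Kf ↔ σ x = x) →
  ∃ (N' : ℕ) (W : Fin N' → Set L)
    (_ : ∀ a, ∀ x ∈ Kf, ∃ y ∈ W a, ∃ y' ∈ W a, y' ≠ 0 ∧ x = y / y') (d : ℕ) (_ : 1 ≤ d)
    (G : ULift.{u} (Fin N') → L)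
    (_ : ∀ t, G t ∈ H920R2.FS k z d ∧ G t ≠ 0 ∧ σ (G t) = G t),
    AA {V | ∀ c : k, algebraMap k L c ∈ V} Kf W γ h (fun t => H920R2.AF k z d (G t)) G ∧
    ∀ t, Algebra.Smooth k (H920R2.AF k z d (G t))

/-- The smooth projective model of the quotient of a smooth projective variety. -/
def GenModelStm : Prop := ∀ (k L : Type u) [Field k] [Field L] [Algebra k L] (l : ℕ)
  (z : Fin (l + 1) → L), (∀ i, z i ≠ 0) → (∀ i, Algebra.Smooth k (H920R2.AZ k z i)) →
  IntermediateField.adjoin k (Set.range fun j => z j / z 0) = ⊤ →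
  ∀ (σ : L ≃ₐ[k] L) (p m : ℕ), p.Prime → (p : k) = 0 → (m : k) ≠ 0 →
  (∃ ζ : k, IsPrimitiveRoot ζ m) → (∀ x, σ^[p * p * m] x = x) →
  (∀ i, σ (z i) ∈ Submodule.span k (Set.range z)) →
  (∀ i (q : Ideal (H920R2.AZ k z i)) (hq : q.IsPrime),
    LinAt ((σ : L →ₐ[k] L) ^ m) (locR _ q hq) ∧
    LinAt ((σ : L →ₐ[k] L) ^ (m * p)) (locR _ q hq)) →
  ∃ (N : ℕ) (W : Fin N → Set L)
    (_ : ∀ a, ∀ x ∈ H920R2.fixF σ, ∃ y ∈ W a, ∃ y' ∈ W a, y' ≠ 0 ∧ x = y / y')
    (I : Type u) (_ : Finite I) (z' : I → L) (J : Set I),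
    H920R2.ModelG k W (H920R2.fixF σ).toSubfield z' J

end Pool.Agent.W559.Et
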