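import Pool.Agent.W559.Et.FinA
import Pool.Agent.W559.Et.FinB
import Pool.Agent.W559.Et.Stm6
import Pool.Agent.H920R2.Gl4

set_option autoImplicit false
set_option linter.unusedSectionVars false

open MvPolynomial AlgebraicGeometry CategoryTheory TensorProduct

universe u

namespace Pool.Agent.W559.Et

open Pool.Agent.H920R2

section

variable {k : Type} [Field k] [Finite k] {p m : ℕ} (hp : p.Prime) (hpk : (p : k) = 0) (hm : 0 < m)
  {ω : k} (hω : IsPrimitiveRoot ω m)

lemma fixF_eq {L : Type} [Field L] [Algebra k L] (σ : L ≃ₐ[k] L) :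
    fixF σ = IntermediateField.fixedField (Subgroup.zpowers σ) := by
  ext x
  rw [mem_fixF, IntermediateField.mem_fixedField_iff]
  constructor
  · rintro hx _ ⟨m, rfl⟩
    have h2 : σ ∈ MulAction.stabilizer (L ≃ₐ[k] L) x := hx
    exact (MulAction.stabilizer (L ≃ₐ[k] L) x).zpow_mem h2 m
  · intro hx
    exact hx σ (Subgroup.mem_zpowers σ)

include hp hpk hm hω in
/-- Regular models of the quotients of smooth projective varieties. -/
theorem gen_models' (hgen : GenModelStm.{0}) {L : Type} [Field L] [Algebra k L] {l : ℕ}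
    {z : Fin (l + 1) → L} (hz : ∀ i, z i ≠ 0)
    (hsmz : ∀ i, Algebra.Smooth k (Algebra.adjoin k (Set.range fun j => z j / z i)))
    (hgenz : IntermediateField.adjoin k (Set.range fun j => z j / z 0) = ⊤)
    (σ : L ≃ₐ[k] L) (hσ : σ ^ (p ^ 2 * m) = 1)
    (hlin : ∀ i, σ (z i) ∈ Submodule.span k (Set.range z))
    (hloc : ∀ i (q : Ideal (Algebra.adjoin k (Set.range fun j => z j / z i))) (hq : q.IsPrime),
      LinAt ((σ ^ m : L ≃ₐ[k] L) : L →ₐ[k] L) (locR _ q hq) ∧
      LinAt ((σ ^ (m * p) : L ≃ₐ[k] L) : L →ₐ[k] L) (locR _ q hq))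
    (Y : Scheme.{0}) (_ : IsIntegral Y) (s : Y ⟶ Spec (CommRingCat.of ℤ))
    (_ : LocallyOfFiniteType s) (_ : QuasiCompact s)
    (_ : Nonempty (Y.functionField ≃+* IntermediateField.fixedField (Subgroup.zpowers σ))) :
    ∃ (X' : Scheme.{0}) (_ : IsIntegral X') (g : X' ⟶ Spec (CommRingCat.of ℤ)),
      IsProper g ∧
      (∀ x : X',
        (((Module.finrank (IsLocalRing.ResidueField (X'.presheaf.stalk x))
            (IsLocalRing.CotangentSpace (X'.presheaf.stalk x)) : ℕ∞)) : WithBot ℕ∞)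
          = ringKrullDim (X'.presheaf.stalk x)) ∧
      Nonempty (X'.functionField ≃+* Y.functionField) := by
  have hσN : ∀ x, σ^[p * p * m] x = x := by
    intro x
    rw [← equiv_pow_iter, ← pow_two, hσ]
    rfl
  obtain ⟨N, W, hW, I, hI, z', J, hM⟩ := hgen k L l z hz hsmz hgenz σ p m hp hpk (cast_ne hm hω)
    ⟨ω, hω⟩ hσN hlin (fun i q hq => by
      have h1 := hloc i q hq
      rw [equiv_pow_coe, equiv_pow_coe] at h1
      exact h1)
  obtain ⟨X', hX', g, h1, h2, ⟨h3⟩⟩ := exists_regular_model (fixF σ) hM hW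
  obtain ⟨ε⟩ := ‹Nonempty (Y.functionField ≃+* IntermediateField.fixedField (Subgroup.zpowers σ))›
  rw [← fixF_eq] at ε
  exact ⟨X', hX', g, h1, h2, ⟨h3.trans ε.symm⟩⟩

include hp hpk hm hω in
/-- Regular models of the quotients of powers of smooth projective varieties. -/
theorem perm_models' (hmain : MainStm.{0}) (hgrp : GrpStm.{0}) (hpow : PowStm.{0})
    (hmodel : ModelStm.{0}) {K : Type} [Field K] [Algebra k K] {l : ℕ}
    {z : Fin (l + 1) → K} (hz : ∀ i, z i ≠ 0)
    (hsmz : ∀ i, Algebra.Smooth k (Algebra.adjoin k (Set.range fun j => z j / z i)))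
    (hgenz : IntermediateField.adjoin k (Set.range fun j => z j / z 0) = ⊤)
    {L : Type} [Field L] [Algebra k L] {n : ℕ} (e : Fin n → K →ₐ[k] L)
    (hdisj : Function.Injective (PiTensorProduct.lift
      ((MultilinearMap.mkPiAlgebra k (Fin n) L).compLinearMap fun i => (e i).toLinearMap)))
    (hgen : ⨆ i, (e i).fieldRange = ⊤)
    (π : Equiv.Perm (Fin n)) (hπ : π ^ (p ^ 2 * m) = 1)
    (τ : L ≃ₐ[k] L) (hτ : ∀ i x, τ (e i x) = e (π i) x)
    (Y : Scheme.{0}) (_ : IsIntegral Y) (s : Y ⟶ Spec (CommRingCat.of ℤ))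
    (_ : LocallyOfFiniteType s) (_ : QuasiCompact s)
    (_ : Nonempty (Y.functionField ≃+* IntermediateField.fixedField (Subgroup.zpowers τ))) :
    ∃ (X' : Scheme.{0}) (_ : IsIntegral X') (g : X' ⟶ Spec (CommRingCat.of ℤ)),
      IsProper g ∧
      (∀ x : X',
        (((Module.finrank (IsLocalRing.ResidueField (X'.presheaf.stalk x))
            (IsLocalRing.CotangentSpace (X'.presheaf.stalk x)) : ℕ∞)) : WithBot ℕ∞)
          = ringKrullDim (X'.presheaf.stalk x)) ∧
      Nonempty (X'.functionField ≃+* Y.functionField) := by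
  classical
  obtain ⟨g, hg, hgl⟩ := exists_mulMap (K := fun _ : Fin n => K) e
  have hginj : Function.Injective g := by
    intro a b hab
    apply hdisj
    rw [← hgl, ← hgl]
    exact hab
  have hfr : ∀ x : L, ∃ a b, g b ≠ 0 ∧ x = g a / g b := by
    have htop : frF g = ⊤ := by
      rw [eq_top_iff, ← hgen, iSup_le_iff]
      rintro i _ ⟨x, rfl⟩
      have h1 := FrB.of (g : (⨂[k] _ : Fin n, K) →+* L)
        (PiTensorProduct.singleAlgHom (R := k) (A := fun _ : Fin n => K) i x)
      have h2 : (g : (⨂[k] _ : Fin n, K) →+* L)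
        (PiTensorProduct.singleAlgHom (R := k) (A := fun _ : Fin n => K) i x) = e i x := hg i x
      rw [h2] at h1
      exact h1
    intro x
    have h1 : x ∈ frF g := by rw [htop]; trivial
    exact h1
  have hτi : ∀ (l : ℕ) i x, τ^[l] (e i x) = e ((π ^ l) i) x := by
    intro l
    induction l with
    | zero => intro i x; rfl
    | succ l ih =>
      intro i x
      rw [Function.iterate_succ_apply, hτ, ih, pow_succ]
      rfl
  have hτN : ∀ x, τ^[p * p * m] x = x := by
    have h0 : (⊤ : IntermediateField k L) ≤ fixF (τ ^ (p * p * m)) := by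
      rw [← hgen, iSup_le_iff]
      rintro i _ ⟨x, rfl⟩
      change (τ ^ (p * p * m)) (e i x) = e i x
      rw [equiv_pow_iter, hτi, ← pow_two, hπ]
      rfl
    intro x
    rw [← equiv_pow_iter]
    exact h0 (show x ∈ (⊤ : IntermediateField k L) from trivial)
  obtain ⟨N, W, hW, I, hI, z', J, hM⟩ := perm_model hmain hgrp hpow hmodel hz hsmz hgenz e hg hginj
    hfr hp hpk (cast_ne hm hω) ⟨ω, hω⟩ τ hτN π hτ
  obtain ⟨X', hX', g, h1, h2, ⟨h3⟩⟩ := exists_regular_model (fixF τ) hM hW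
  obtain ⟨ε⟩ := ‹Nonempty (Y.functionField ≃+* IntermediateField.fixedField (Subgroup.zpowers τ))›
  rw [← fixF_eq] at ε
  exact ⟨X', hX', g, h1, h2, ⟨h3.trans ε.symm⟩⟩

end

end Pool.Agent.W559.Et
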