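import Pool.Agent.W559.Et.Ld

set_option autoImplicit false
set_option linter.unusedSectionVars false

open MvPolynomial

universe u v w

namespace Pool.Agent.W559.Et

open Pool.Agent.W559.Mg

section locrf

variable {k K : Type u} [Field k] [Field K] [Algebra k K] (γ : K →ₐ[k] K)

lemma pow_fix {r : ℕ} {f : K} (hf : γ f = f) : (γ ^ r) f = f := by
  rw [pow_app, Function.iterate_fixed hf]

/-- Localization of the Rees algebra at an invariant function. -/
lemma RF_lc (r : ℕ) (B : Subalgebra k K) {f : K} (hf : f ∈ B) (hf0 : f ≠ 0)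
    (hγf : γ f = f) : RF γ r (lc B f hf) = lc (RF γ r B) (mo 0 f) (RF_b γ r hf) := by
  have hffx : ∀ n : ℕ, f ^ n ∈ fx (γ ^ r) := fun n => by
    rw [mem_fx, map_pow, pow_fix γ hγf]
  apply le_antisymm
  · conv_lhs => unfold RF
    rw [Algebra.adjoin_le_iff]
    have hle := le_lc (RF γ r B) (mo 0 f) (RF_b γ r hf)
    rintro g ((hg | hg | hg) | ⟨a, ⟨n, hn⟩, j, rfl⟩)
    · rw [hg]; exact hle (RF_s γ r B)
    · rw [hg]; exact hle (RF_z γ r B)
    · rw [Set.mem_singleton_iff.1 hg]; exact hle (RF_z' γ r B)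
    · refine ⟨n, ?_⟩
      rw [mo_pow, smul_zero, mo_mul, zero_add, ← dl_iter_fx_mul _ (hffx n)]
      exact RF_d γ r hn j
  · refine lc_le (y := mo 0 f⁻¹) _ ?_ (RF_mono γ r (le_lc B f hf)) ?_
    · rw [mo_mul, zero_add, mul_inv_cancel₀ hf0, mo_one]
    · exact RF_b γ r (inv_mem_lc B f f⁻¹ hf (mul_inv_cancel₀ hf0))

lemma RB.lc {p : ℕ} {R : Subalgebra k (ML K G3)} (hR : RB γ p R) {f : K} (hf0 : f ≠ 0)
    (hγf : γ f = f) (hf : mo 0 f ∈ R) : RB γ p (lc R (mo 0 f) hf) where
  s := le_lc _ _ _ hR.s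
  g := by
    rintro g ⟨n, hn⟩
    refine ⟨n, ?_⟩
    have h1 := hR.g _ hn
    rwa [map_mul, map_pow, gm_mo, hγf] at h1
  D := by
    rintro g ⟨n, hn⟩
    refine ⟨n, ?_⟩
    have h1 := hR.D _ hn
    rwa [Dn_fx_mul _ _ (by rw [map_pow, gm_mo, pow_fix γ hγf])] at h1
  c := by
    rintro g ⟨n, hn⟩ d hd
    have h1 := hR.c _ hn (n • 0 + d)
    rw [mo_pow, coeff_mo_mul, add_sub_cancel_left] at h1
    have h2 := h1 (mul_ne_zero (pow_ne_zero _ hf0) hd)
    rwa [smul_zero, zero_add] at h2

variable {p : ℕ}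

/-- Localization of the algebra of polynomials. -/
lemma Rp_lc (R : Subalgebra k (ML K G3)) {x : ML K G3} (hx : x ∈ R)
    {g : MvPolynomial (Fin p) (ML K G3)} (hg : g ∈ Rp p (sS K) (lc R x hx)) :
    ∃ n : ℕ, C x ^ n * g ∈ Rp p (sS K) R := by
  have hCx : (C x : MvPolynomial (Fin p) (ML K G3)) ∈ Rp p (sS K) R := Rp_C hx
  have h1 : Rp p (sS K) (lc R x hx) ≤ lc (Rp p (sS K) R) (C x) hCx := by
    conv_lhs => unfold Rp
    rw [Algebra.adjoin_le_iff]
    rintro f (⟨a, ⟨n, hn⟩, rfl⟩ | ⟨i, rfl⟩)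
    · refine ⟨n, ?_⟩
      rw [← map_pow, ← map_mul]
      exact Rp_C hn
    · exact le_lc _ _ _ (Rp_th R i)
  exact h1 hg

/-- Localization of the universal algebra of the second level. -/
lemma SU_lc {R : Subalgebra k (ML K G3)} {x x' : ML K G3} (hx : x ∈ R)
    (hγx : gm G3 γ x = x) (hxx : x * x' = 1) (hCx : C x ∈ SU γ p R) :
    SU γ p (lc R x hx) = lc (SU γ p R) (C x) hCx := by
  set g := ge (gm G3 γ) p (sS K) with hg
  have hxfx : ∀ n : ℕ, (C x ^ n : MvPolynomial (Fin p) (ML K G3)) ∈ fx g := fun n => by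
    rw [mem_fx, map_pow, hg, ge_C, hγx]
  have hxfp : ∀ n : ℕ, (g ^ p) (C x ^ n : MvPolynomial (Fin p) (ML K G3)) = C x ^ n := fun n => by
    rw [pow_app, Function.iterate_fixed (mem_fx.1 (hxfx n))]
  have hγx' : gm G3 γ x' = x' := by
    have h1 : x * gm G3 γ x' = 1 := by
      have h2 := congrArg (gm G3 γ) hxx
      rwa [map_mul, hγx, map_one] at h2
    calc gm G3 γ x' = (x * x') * gm G3 γ x' := by rw [hxx, one_mul]
      _ = (x * gm G3 γ x') * x' := by ring
      _ = x' := by rw [h1, one_mul]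
  apply le_antisymm
  · refine S2_le _ p _ _ _ _ (le_lc _ _ _ (S2_T' _ p _ _ _ _)) ?_ ?_
    · rintro w ⟨hw1, hw2⟩ i
      obtain ⟨n, hn⟩ := Rp_lc R hx hw1
      refine ⟨n, ?_⟩
      rw [← mul_assoc, ← dl_iter_fx_mul _ (hxfx n)]
      have hw' : C x ^ n * w ∈ WU γ p R := by
        refine ⟨hn, ?_⟩
        rw [SetLike.mem_coe, mem_fx] at hw2 ⊢
        rw [map_mul, hxfp, hw2]
      exact S2_w g p _ _ (WU γ p R) _ hw' i
    · intro i hi
      exact le_lc _ _ _ (S2_t _ p _ _ _ _ hi)
  · refine lc_le (y := C x') _ (by rw [← map_mul, hxx, map_one]) ?_ ?_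
    · refine S2_le _ p _ _ _ _ (S2_T' _ p _ _ _ _) ?_ ?_
      · rintro w ⟨hw1, hw2⟩ i
        have hw' : w ∈ WU γ p (lc R x hx) := by
          refine ⟨?_, hw2⟩
          refine Algebra.adjoin_mono ?_ hw1
          exact Set.union_subset_union_left _ (Set.image_mono (le_lc R x hx))
        exact S2_w g p _ _ (WU γ p (lc R x hx)) _ hw' i
      · intro i hi
        exact S2_t _ p _ _ _ _ hi
    · have hw' : C x' ∈ WU γ p (lc R x hx) := by
        refine ⟨Rp_C (inv_mem_lc R x x' hx hxx), ?_⟩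
        rw [SetLike.mem_coe, mem_fx, pow_app, Function.iterate_fixed]
        rw [ge_C, hγx']
      exact S2_W g p _ _ (WU γ p (lc R x hx)) _ hw'

end locrf

section smc

variable {k K : Type u} [Field k] [Field K] [Algebra k K] {γ : K →ₐ[k] K} {p : ℕ}
  (hp : p.Prime) (hpk : (p : k) = 0)

/-- Polynomials over a smooth algebra. -/
lemma smooth_Rp {R : Subalgebra k (ML K G3)} (hs : sS K ∈ R) (hR : Algebra.Smooth k R) :
    Algebra.Smooth k (Rp p (sS K) R) := by
  have hinc : Function.Injective (MvPolynomial.map (σ := Fin p) R.val.toRingHom) :=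
    MvPolynomial.map_injective _ Subtype.val_injective
  let φ : MvPolynomial (Fin p) R →ₐ[k] MvPolynomial (Fin p) (ML K G3) :=
    { MvPolynomial.map (σ := Fin p) R.val.toRingHom with
      commutes' := fun r => by
        change MvPolynomial.map R.val.toRingHom (C (algebraMap k R r)) = C (algebraMap k _ r)
        rw [MvPolynomial.map_C]
        rfl }
  have hφ : Function.Injective φ := hinc
  have hrange : φ.range = Rp p (sS K) R := by
    apply le_antisymm
    · rintro _ ⟨f, rfl⟩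
      induction f using MvPolynomial.induction_on with
      | C a =>
        change MvPolynomial.map R.val.toRingHom (C a) ∈ _
        rw [MvPolynomial.map_C]
        exact Rp_C a.2
      | add f g hf hg =>
        change φ (f + g) ∈ _
        rw [map_add]; exact Subalgebra.add_mem _ hf hg
      | mul_X f i hf =>
        change φ (f * X i) ∈ _
        rw [map_mul]
        refine Subalgebra.mul_mem _ hf ?_
        change MvPolynomial.map R.val.toRingHom (X i) ∈ _
        rw [MvPolynomial.map_X, ← th_X p (sS K) i]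
        exact Rp_th R i
    · unfold Rp
      rw [Algebra.adjoin_le_iff]
      rintro f (⟨a, ha, rfl⟩ | ⟨i, rfl⟩)
      · exact ⟨C ⟨a, ha⟩, MvPolynomial.map_C _ _⟩
      · rcases lt_trichotomy i p with hi | hi | hi
        · have h1 : th p (sS K) i = X ⟨i, hi⟩ := th_X p (sS K) ⟨i, hi⟩
          rw [h1]
          exact ⟨X ⟨i, hi⟩, MvPolynomial.map_X _ _⟩
        · rw [hi, th_p]
          exact ⟨C ⟨sS K, hs⟩, MvPolynomial.map_C _ _⟩
        · rw [th_gt p (sS K) hi]
          exact Subalgebra.zero_mem _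
  have h0 : Algebra.Smooth R (MvPolynomial (Fin p) R) := ⟨inferInstance, inferInstance⟩
  have h1 : Algebra.Smooth k (MvPolynomial (Fin p) R) :=
    Algebra.Smooth.comp k R (MvPolynomial (Fin p) R)
  have h2 : Algebra.Smooth k φ.range :=
    Algebra.Smooth.of_equiv (A := MvPolynomial (Fin p) R) (B := φ.range)
      (AlgEquiv.ofInjective φ hφ)
  rw [hrange] at h2
  exact h2

include hp hpk in
/-- Smoothness of the constants of the second level. -/
lemma smooth_WU (hγ : ∀ x : K, γ^[p * p] x = x) {R : Subalgebra k (ML K G3)} (hR : RB γ p R)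
    (hsm : Algebra.Smooth k R) : Algebra.Smooth k (WU γ p R) := by
  have hs0 : (C (sS K) : MvPolynomial (Fin p) (ML K G3)) ≠ 0 := by
    rw [Ne, map_eq_zero_iff C (C_injective _ _)]
    exact mo_ne_zero one_ne_zero
  refine smooth_fix (ge (gm G3 γ) p (sS K) ^ p) hp hpk (Rp p (sS K) R) ?_
    (sig_iter hp hpk hγ R) (C (sS K)) hs0 ?_ ?_ (th p (sS K) 0) (Rp_th R 0) ?_
    (smooth_Rp hR.s hsm)
  · intro x hx
    obtain ⟨x', hx', h1⟩ := sig_cong hp hpk hR x hx
    rw [h1]
    exact Subalgebra.add_mem _ hx (Subalgebra.mul_mem _ (Rp_C hR.s) hx')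
  · rw [sig_C]; unfold sS; rw [gm_mo, map_one]
  · intro x hx
    obtain ⟨x', hx', h1⟩ := sig_cong hp hpk hR x hx
    exact ⟨x', hx', by rw [h1, add_sub_cancel_left]⟩
  · rw [sig_th hp hpk, zero_add, th_p, add_sub_cancel_left]

include hp hpk in
/-- The localization of the universal algebra at the parameter. -/
lemma smooth_SU_T (hlaur : LaurStm.{u}) (hγ : ∀ x : K, γ^[p * p] x = x)
    {R : Subalgebra k (ML K G3)} (hR : RB γ p R) (hsm : Algebra.Smooth k R)
    (hT' : C (mo (dg 0 (-1) 0) 1) ∈ SU γ p R) :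
    Algebra.Smooth k (lc (SU γ p R) (C (mo (dg 0 (-1) 0) 1)) hT') := by
  set g := ge (gm G3 γ) p (sS K) with hg
  set T : MvPolynomial (Fin p) (ML K G3) := C (mo (dg 0 1 0) 1) with hT
  set T' : MvPolynomial (Fin p) (ML K G3) := C (mo (dg 0 (-1) 0) 1) with hTd'
  have hTT : T * T' = 1 := by rw [hT, hTd', ← map_mul, TT'_one, map_one]
  have h1 := hlaur k _ (WU γ p R) T' T (by rw [mul_comm, hTT]) ?_
    (smooth_WU hp hpk hγ hR hsm)
  · have h2 : Algebra.adjoin k ((WU γ p R : Set (MvPolynomial (Fin p) (ML K G3))) ∪ {T', T}) =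
        lc (SU γ p R) T' hT' := by
      apply le_antisymm
      · rw [Algebra.adjoin_le_iff]
        rintro f (hf | hf | hf)
        · exact le_lc _ _ _ (S2_W _ p _ _ _ _ hf)
        · rw [hf]; exact le_lc _ _ _ hT'
        · rw [Set.mem_singleton_iff.1 hf]
          exact inv_mem_lc _ _ _ _ (by rw [mul_comm, hTT])
      · have hTm : T ∈ (((WU γ p R : Set (MvPolynomial (Fin p) (ML K G3)))) ∪ {T', T}) :=
          Or.inr (Or.inr rfl)
        have hTm' : T' ∈ (((WU γ p R : Set (MvPolynomial (Fin p) (ML K G3)))) ∪ {T', T}) :=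
          Or.inr (Or.inl rfl)
        refine lc_le (y := T) hT' (by rw [mul_comm, hTT]) ?_ (Algebra.subset_adjoin hTm)
        refine S2_le g p T T' _ _ (Algebra.subset_adjoin hTm') ?_ ?_
        · intro w hw i
          exact Subalgebra.mul_mem _ (Algebra.subset_adjoin (Or.inl
            (dl_iter_mem g (WU_ge hR) i hw))) (Subalgebra.pow_mem _ (Algebra.subset_adjoin hTm) _)
        · intro i hi
          rw [dl_iter_th _ _ _ (gs γ)]
          exact Subalgebra.mul_mem _ (Algebra.subset_adjoin (Or.inl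
            (WU_th hp hpk R (by omega)))) (Subalgebra.pow_mem _ (Algebra.subset_adjoin hTm) _)
    rw [h2] at h1
    exact h1
  · intro c hc h1
    ext i : 1
    apply MvPolynomial.ext
    intro m
    let c' : ℕ →₀ ML K G3 := c.mapRange (fun f => f.coeff m) (MvPolynomial.coeff_zero m)
    have hc' : ∀ i, c' i = (c i).coeff m := fun i => Finsupp.mapRange_apply
    have h2 : (c'.sum fun i a => a * (mo (dg 0 (-1) 0) 1) ^ i) = 0 := by
      rw [Finsupp.sum_mapRange_index (fun i => zero_mul _)]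
      have h3 := congrArg (fun f => MvPolynomial.coeff m f) h1
      simp only [Finsupp.sum, MvPolynomial.coeff_sum, MvPolynomial.coeff_zero] at h3
      rw [Finsupp.sum, ← h3]
      refine Finset.sum_congr rfl fun i _ => ?_
      rw [hTd', ← map_pow, mul_comm (c i), MvPolynomial.coeff_C_mul, mul_comm]
    have h3 := ind_deg co2 (dg 0 (-1) 0) (by rw [co2_dg]; norm_num) c'
      (fun i d hd => by
        rw [hc'] at hd
        exact hR.c _ (pc_supp hR (hc i).1 m) d hd) h2
    rw [← hc', h3]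
    simp

end smc

end Pool.Agent.W559.Et
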