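import Pool.Agent.W559.Et.FinC
import Pool.Agent.W327.Et.Two2
import Pool.Agent.W338.ET.Base
import Pool.Agent.W366.ET.Rw
import Pool.Agent.W933.ET_RwSm
import Pool.Agent.W479.EtSecW
import Pool.Agent.W293.ET.CbSm
import Pool.Agent.W150.Et.Fin
import Pool.Agent.W930.ET.Perm
import Pool.Agent.W125.ET.Crit1
import Pool.Agent.W305.Et.Main
import Pool.Agent.W85.Et.Grp
import Pool.Agent.W924.ET.POW
import Pool.Agent.W372.Et.AffMain
import Pool.Agent.W338.ET.Spread
import Pool.Agent.W460.Et.GenModel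
import Pool.Agent.W366.ET.Cb
import Pool.Agent.W460.Et.Strong
import Pool.Agent.W347.Et.Ext
import Pool.Agent.W762.ET.Tame
import Pool.Agent.W32.Et.Laur
import Pool.Agent.W991.Et.Dec
import Pool.Agent.W333.Et.Modif
import Pool.Agent.W613.Et.Level
import Pool.Agent.W417.Et.Step
import Pool.Agent.W440.ET.Model
import Pool.Agent.W393.ET.Lin
import Pool.Agent.W417.Et.Sec
import Pool.Agent.W583.EtOneFin
import Pool.Agent.W382.Et.AffPerm
import Pool.Agent.W131.ET.Pt
import Pool.Agent.W605.Et.GenAtlas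
import Pool.Agent.W335.Et.Crit2

/-!
Assembly of the lemmas of the project Et.
-/

set_option autoImplicit false
set_option linter.unusedSectionVars false

open AlgebraicGeometry CategoryTheory TensorProduct

universe u

namespace Pool.Agent.W559.Et

theorem ext' : ExtStm.{u} := Pool.Agent.W347.Et.ext_of_strong Pool.Agent.W460.Et.strong

theorem level' : LevelStm.{u} := Pool.Agent.W613.Et.level Pool.Agent.W333.Et.modif

theorem step' : StepStm.{u} := Pool.Agent.W417.Et.step Pool.Agent.W333.Et.modif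

theorem fin' : FinStm.{u} :=
  Pool.Agent.W150.Et.main Pool.Agent.W338.ET.base Pool.Agent.W366.ETRW.rw_holds
    Pool.Agent.W933.ETRW.main Pool.Agent.W479.ET.secw Pool.Agent.W293.ET.cbsm
    Pool.Agent.W583.EtOne.one (Pool.Agent.W327.Et.two level' Pool.Agent.W613.Et.ofPb)
    Pool.Agent.W613.Et.ofPb step'

theorem crit2' : Crit2Stm.{u} :=
  Pool.Agent.W335.Et.crit2 Pool.Agent.W366.ET.cb Pool.Agent.W991.Et.dec ext'
    Pool.Agent.W393.ET.linStm Pool.Agent.W32.Et.laur

theorem main' : MainStm.{u} := Pool.Agent.W305.Et.Main.main fin' Pool.Agent.W125.ET.crit1 crit2'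

theorem pow' : PowStm.{u} := Pool.Agent.W924.ET.POW Pool.Agent.W930.ET.perm

theorem genModel' : GenModelStm.{u} := Pool.Agent.W460.Et.gen_model main' Pool.Agent.W85.Et.grp
  Pool.Agent.W440.ET.model Pool.Agent.W338.ET.spread Pool.Agent.W131.ET.pt
  Pool.Agent.W605.Et.genAtlas

theorem affMain' : AffMainStm.{u} := Pool.Agent.W372.Et.affMain main' Pool.Agent.W85.Et.grp
  Pool.Agent.W440.ET.aff

theorem affPerm' : AffPermStm.{u} := Pool.Agent.W382.Et.AffPerm.main Pool.Agent.W930.ET.perm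

section

variable {k : Type} [Field k] [Finite k] {p m : ℕ} (hp : p.Prime) (hpk : (p : k) = 0) (hm : 0 < m)
  {ω : k} (hω : IsPrimitiveRoot ω m)

include hp hpk hm hω in
/-- Regular models of the quotients of smooth projective varieties. -/
theorem gen_models {L : Type} [Field L] [Algebra k L] {l : ℕ}
    {z : Fin (l + 1) → L} (hz : ∀ i, z i ≠ 0)
    (hsmz : ∀ i, Algebra.Smooth k (Algebra.adjoin k (Set.range fun j => z j / z i)))
    (hgenz : IntermediateField.adjoin k (Set.range fun j => z j / z 0) = ⊤)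
    (σ : L ≃ₐ[k] L) (hσ : σ ^ (p ^ 2 * m) = 1)
    (hlin : ∀ i, σ (z i) ∈ Submodule.span k (Set.range z))
    (hloc : ∀ i (q : Ideal (Algebra.adjoin k (Set.range fun j => z j / z i))) (hq : q.IsPrime),
      LinAt ((σ ^ m : L ≃ₐ[k] L) : L →ₐ[k] L) (locR _ q hq) ∧
      LinAt ((σ ^ (m * p) : L ≃ₐ[k] L) : L →ₐ[k] L) (locR _ q hq))
    (Y : Scheme.{0}) (h1 : IsIntegral Y) (s : Y ⟶ Spec (CommRingCat.of ℤ))
    (h2 : LocallyOfFiniteType s) (h3 : QuasiCompact s)
    (h4 : Nonempty (Y.functionField ≃+* IntermediateField.fixedField (Subgroup.zpowers σ))) :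
    ∃ (X' : Scheme.{0}) (_ : IsIntegral X') (g : X' ⟶ Spec (CommRingCat.of ℤ)),
      IsProper g ∧
      (∀ x : X',
        (((Module.finrank (IsLocalRing.ResidueField (X'.presheaf.stalk x))
            (IsLocalRing.CotangentSpace (X'.presheaf.stalk x)) : ℕ∞)) : WithBot ℕ∞)
          = ringKrullDim (X'.presheaf.stalk x)) ∧
      Nonempty (X'.functionField ≃+* Y.functionField) :=
  gen_models' hp hpk hm hω genModel' hz hsmz hgenz σ hσ hlin hloc Y h1 s h2 h3 h4

include hp hpk hm hω in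
/-- Regular models of the quotients of powers of smooth projective varieties. -/
theorem perm_models {K : Type} [Field K] [Algebra k K] {l : ℕ}
    {z : Fin (l + 1) → K} (hz : ∀ i, z i ≠ 0)
    (hsmz : ∀ i, Algebra.Smooth k (Algebra.adjoin k (Set.range fun j => z j / z i)))
    (hgenz : IntermediateField.adjoin k (Set.range fun j => z j / z 0) = ⊤)
    {L : Type} [Field L] [Algebra k L] {n : ℕ} (e : Fin n → K →ₐ[k] L)
    (hdisj : Function.Injective (PiTensorProduct.lift
      ((MultilinearMap.mkPiAlgebra k (Fin n) L).compLinearMap fun i => (e i).toLinearMap)))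
    (hgen : ⨆ i, (e i).fieldRange = ⊤)
    (π : Equiv.Perm (Fin n)) (hπ : π ^ (p ^ 2 * m) = 1)
    (τ : L ≃ₐ[k] L) (hτ : ∀ i x, τ (e i x) = e (π i) x)
    (Y : Scheme.{0}) (h1 : IsIntegral Y) (s : Y ⟶ Spec (CommRingCat.of ℤ))
    (h2 : LocallyOfFiniteType s) (h3 : QuasiCompact s)
    (h4 : Nonempty (Y.functionField ≃+* IntermediateField.fixedField (Subgroup.zpowers τ))) :
    ∃ (X' : Scheme.{0}) (_ : IsIntegral X') (g : X' ⟶ Spec (CommRingCat.of ℤ)),
      IsProper g ∧
      (∀ x : X',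
        (((Module.finrank (IsLocalRing.ResidueField (X'.presheaf.stalk x))
            (IsLocalRing.CotangentSpace (X'.presheaf.stalk x)) : ℕ∞)) : WithBot ℕ∞)
          = ringKrullDim (X'.presheaf.stalk x)) ∧
      Nonempty (X'.functionField ≃+* Y.functionField) :=
  perm_models' hp hpk hm hω main' Pool.Agent.W85.Et.grp pow' Pool.Agent.W440.ET.model hz hsmz
    hgenz e hdisj hgen π hπ τ hτ Y h1 s h2 h3 h4

end

end Pool.Agent.W559.Et
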