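import Pool.Agent.W559.Et.Stm5

set_option autoImplicit false
set_option linter.unusedSectionVars false

open MvPolynomial AlgebraicGeometry CategoryTheory TensorProduct

universe u

namespace Pool.Agent.W559.Et

open Pool.Agent.W559.Mg

section

variable {k K L : Type u} [Field k] [Field K] [Algebra k K] [Field L] [Algebra k L]

/-- The smooth projective model of the quotient of a power of a smooth projective variety by a
permutation of the factors. -/
theorem perm_model (hmain : MainStm.{u}) (hgrp : GrpStm.{u}) (hpow : PowStm.{u})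
    (hmodel : ModelStm.{u}) {l n : ℕ} {z : Fin (l + 1) → K} (hz : ∀ i, z i ≠ 0)
    (hsmz : ∀ i, Algebra.Smooth k (H920R2.AZ k z i))
    (hgenz : IntermediateField.adjoin k (Set.range fun j => z j / z 0) = ⊤)
    (e : Fin n → K →ₐ[k] L) {g : (⨂[k] _ : Fin n, K) →ₐ[k] L}
    (hg : ∀ i x, g (PiTensorProduct.singleAlgHom (R := k) (A := fun _ : Fin n => K) i x) = e i x)
    (hginj : Function.Injective g) (hfr : ∀ x : L, ∃ a b, g b ≠ 0 ∧ x = g a / g b)
    {p m : ℕ} (hp : p.Prime) (hpk : (p : k) = 0) (hm : (m : k) ≠ 0)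
    (hζ : ∃ ζ : k, IsPrimitiveRoot ζ m) (τ : L ≃ₐ[k] L) (hτN : ∀ x, τ^[p * p * m] x = x)
    (π : Equiv.Perm (Fin n)) (hτ : ∀ i x, τ (e i x) = e (π i) x) :
    ∃ (N : ℕ) (W : Fin N → Set L)
      (_ : ∀ a, ∀ x ∈ H920R2.fixF τ, ∃ y ∈ W a, ∃ y' ∈ W a, y' ≠ 0 ∧ x = y / y')
      (I : Type u) (_ : Finite I) (z' : I → L) (J : Set I),
      H920R2.ModelG k W (H920R2.fixF τ).toSubfield z' J := by
  obtain ⟨γ, h, M, ω, a, b, c, hGD, hγ, -, hh, hfix, -⟩ := hgrp k L (τ : L →ₐ[k] L) p m hp hpk hm hζ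
    hτN
  have hpw : ∀ (r : ℕ) i x, ((τ : L →ₐ[k] L) ^ r) (e i x) = e ((π ^ r) i) x := by
    intro r
    induction r with
    | zero => intro i x; rfl
    | succ r ih =>
      intro i x
      rw [pow_succ, pow_succ]
      change ((τ : L →ₐ[k] L) ^ r) (τ (e i x)) = _
      rw [hτ, ih]
      rfl
  obtain ⟨N, W, hW, B, H, hAA, hsm, hLL, hLL'⟩ := hpow k K L l n z hz hsmz hgenz e g hg hginj hfr
    γ h (π ^ (m * a)) (π ^ b) (by intro i x; rw [hγ, hpw]) (by intro i x; rw [hh, hpw]) p M ω hGD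
    (H920R2.fixF τ).toSubfield (fun x => (hfix x).symm)
  obtain ⟨T', hT', E', C', H', hMB⟩ := hmain k L γ h p M ω hGD _ _ _ W _ B H hAA hsm hLL hLL'
  obtain ⟨I, hI, z', J, hM⟩ := hmodel k L _ _ W T' E' C' H' hMB
  exact ⟨N, W, hW, I, hI, z', J, hM⟩

end

end Pool.Agent.W559.Et
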