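import Pool.Agent.W559.Et.Stm

set_option autoImplicit false
set_option linter.unusedSectionVars false

open MvPolynomial

universe u v w

namespace Pool.Agent.W559.Et

open Pool.Agent.W559.Mg

section ei

variable {k D : Type u} [Field k] [CommRing D] [Algebra k D]

lemma EI.le {P Q : Subalgebra k D} (h : EI P Q) : P ≤ Q := h.1

lemma EI.refl (P : Subalgebra k D) : EI P P :=
  ⟨le_rfl, RingHom.Etale.of_bijective (f := (Subalgebra.inclusion (le_refl P)).toRingHom)
    ⟨Subalgebra.inclusion_injective _, fun x => ⟨x, rfl⟩⟩⟩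

lemma EI.trans {P Q R : Subalgebra k D} (h : EI P Q) (h' : EI Q R) : EI P R := by
  obtain ⟨h1, h2⟩ := h
  obtain ⟨h3, h4⟩ := h'
  exact ⟨h1.trans h3, RingHom.Etale.stableUnderComposition _ _ h2 h4⟩

/-- Smoothness of etale extensions. -/
lemma EI.smooth {P Q : Subalgebra k D} (h : EI P Q) (hP : Algebra.Smooth k P) :
    Algebra.Smooth k Q := by
  obtain ⟨h1, h2⟩ := h
  let _ : Algebra P Q := (Subalgebra.inclusion h1).toRingHom.toAlgebra
  have _ : IsScalarTower k P Q := IsScalarTower.of_algebraMap_eq fun r => rfl
  have h3 : Algebra.Etale P Q := h2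
  exact Algebra.Smooth.comp k P Q

/-- Transport along an injective homomorphism. -/
lemma EI.map {D' : Type u} [CommRing D'] [Algebra k D'] (φ : D →ₐ[k] D')
    (hφ : Function.Injective φ) {P Q : Subalgebra k D} (h : EI P Q) : EI (P.map φ) (Q.map φ) := by
  obtain ⟨h1, h2⟩ := h
  refine ⟨Subalgebra.map_mono h1, ?_⟩
  let eP := P.equivMapOfInjective φ hφ
  let eQ := Q.equivMapOfInjective φ hφ
  have h3 : (Subalgebra.inclusion (Subalgebra.map_mono (f := φ) h1)).toRingHom =
      ((eQ : Q →+* Q.map φ).comp (Subalgebra.inclusion h1).toRingHom).comp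
        (eP.symm : P.map φ →+* P) := by
    refine RingHom.ext fun x => ?_
    obtain ⟨y, rfl⟩ := eP.surjective x
    apply Subtype.ext
    change ((eP y : P.map φ) : D') = ((eQ (Subalgebra.inclusion h1 (eP.symm (eP y)))) : D')
    rw [eP.symm_apply_apply]
    rfl
  rw [h3]
  exact RingHom.Etale.stableUnderComposition _ _
    (RingHom.Etale.of_bijective eP.symm.bijective)
    (RingHom.Etale.stableUnderComposition _ _ h2 (RingHom.Etale.of_bijective eQ.bijective))

end ei

section laur

variable {k D : Type u} [Field k] [CommRing D] [Algebra k D]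

/-- The integral powers. -/
noncomputable def zp (u : Dˣ) (i : ℤ) : D := ((u ^ i : Dˣ) : D)

lemma zp_mul (u : Dˣ) (i j : ℤ) : zp u i * zp u j = zp u (i + j) := by
  unfold zp; rw [← Units.val_mul, zpow_add]

/-- Decomposition of the elements of a Laurent extension. -/
lemma laur_dec (S : Subalgebra k D) (u : Dˣ) {x : D}
    (hx : x ∈ Algebra.adjoin k ((S : Set D) ∪ {(u : D), ((u⁻¹ : Dˣ) : D)})) :
    ∃ c : ℤ →₀ D, (∀ i, c i ∈ S) ∧ x = c.sum fun i a => a * zp u i := by
  have key : x ∈ Submodule.span S (Set.range (zp u)) := by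
    induction hx using Algebra.adjoin_induction with
    | mem x hx =>
      rcases hx with hx | hx | hx
      · have h1 : x = (⟨x, hx⟩ : S) • zp u 0 := by
          change x = x * zp u 0
          unfold zp
          rw [zpow_zero, Units.val_one, mul_one]
        rw [h1]
        exact Submodule.smul_mem _ _ (Submodule.subset_span ⟨0, rfl⟩)
      · rw [hx]
        refine Submodule.subset_span ⟨1, ?_⟩
        unfold zp
        rw [zpow_one]
      · rw [Set.mem_singleton_iff.1 hx]
        refine Submodule.subset_span ⟨-1, ?_⟩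
        unfold zp
        rw [zpow_neg_one]
    | algebraMap r =>
      have h1 : algebraMap k D r = (algebraMap k S r) • zp u 0 := by
        change _ = algebraMap k D r * zp u 0
        unfold zp
        rw [zpow_zero, Units.val_one, mul_one]
      rw [h1]
      exact Submodule.smul_mem _ _ (Submodule.subset_span ⟨0, rfl⟩)
    | add x y _ _ hx hy => exact Submodule.add_mem _ hx hy
    | mul x y hx0 hy0 hx hy =>
      clear hx0 hy0
      induction hx using Submodule.span_induction with
      | mem x hx =>
        obtain ⟨i, rfl⟩ := hx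
        induction hy using Submodule.span_induction with
        | mem y hy =>
          obtain ⟨j, rfl⟩ := hy
          rw [zp_mul]
          exact Submodule.subset_span ⟨_, rfl⟩
        | zero => rw [mul_zero]; exact Submodule.zero_mem _
        | add y y' _ _ h h' => rw [mul_add]; exact Submodule.add_mem _ h h'
        | smul a y _ h => rw [mul_smul_comm]; exact Submodule.smul_mem _ _ h
      | zero => rw [zero_mul]; exact Submodule.zero_mem _
      | add x x' _ _ h h' => rw [add_mul]; exact Submodule.add_mem _ h h'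
      | smul a x _ h => rw [smul_mul_assoc]; exact Submodule.smul_mem _ _ h
  obtain ⟨c, hc⟩ := (Finsupp.mem_span_range_iff_exists_finsupp).1 key
  refine ⟨c.mapRange (fun a : S => (a : D)) rfl, fun i => ?_, ?_⟩
  · rw [Finsupp.mapRange_apply]
    exact (c i).2
  · rw [← hc, Finsupp.sum_mapRange_index (fun i => zero_mul _)]
    rfl

end laur

section pol

variable {k D : Type u} [Field k] [CommRing D] [Algebra k D] (p : ℕ) (s : D)

/-- The polynomials with coefficients in a subalgebra. -/
def pc (p : ℕ) (R : Subalgebra k D) : Subalgebra k (MvPolynomial (Fin p) D) where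
  carrier := {f | ∀ m, f.coeff m ∈ R}
  mul_mem' := by
    classical
    intro f g hf hg m
    rw [MvPolynomial.coeff_mul]
    exact R.sum_mem fun x _ => R.mul_mem (hf _) (hg _)
  add_mem' := by
    intro f g hf hg m
    rw [MvPolynomial.coeff_add]
    exact R.add_mem (hf m) (hg m)
  algebraMap_mem' := by
    classical
    intro r m
    have h1 : algebraMap k (MvPolynomial (Fin p) D) r = C (algebraMap k D r) := rfl
    rw [h1, MvPolynomial.coeff_C]
    split_ifs
    · exact R.algebraMap_mem r
    · exact R.zero_mem

lemma Rp_eq (R : Subalgebra k D) (hs : s ∈ R) : Rp p s R = pc p R := by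
  classical
  apply le_antisymm
  · unfold Rp
    rw [Algebra.adjoin_le_iff]
    rintro f (⟨a, ha, rfl⟩ | ⟨i, rfl⟩)
    · intro m
      rw [MvPolynomial.coeff_C]
      split_ifs
      · exact ha
      · exact R.zero_mem
    · intro m
      rcases lt_trichotomy i p with hi | hi | hi
      · have h1 : th p s i = X ⟨i, hi⟩ := th_X p s ⟨i, hi⟩
        rw [h1, MvPolynomial.coeff_X]
        split_ifs
        · exact R.one_mem
        · exact R.zero_mem
      · rw [hi, th_p, MvPolynomial.coeff_C]
        split_ifs
        · exact hs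
        · exact R.zero_mem
      · rw [th_gt p s hi, MvPolynomial.coeff_zero]
        exact R.zero_mem
  · intro f hf
    rw [f.as_sum]
    refine Subalgebra.sum_mem _ fun m _ => ?_
    rw [MvPolynomial.monomial_eq]
    refine Subalgebra.mul_mem _ (Algebra.subset_adjoin (Or.inl ⟨_, hf m, rfl⟩)) ?_
    rw [Finsupp.prod]
    refine Subalgebra.prod_mem _ fun i _ => Subalgebra.pow_mem _ ?_ _
    rw [← th_X p s i]
    exact Algebra.subset_adjoin (Or.inr ⟨i, rfl⟩)

/-- Etale inclusions extend to polynomials. -/
lemma EI.poly (hcb : CbStm.{u}) {R R' : Subalgebra k D} (h : EI R R') :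
    EI (pc p R) (pc p R') := by
  classical
  have h0 : EI (R.map (cc k p)) (R'.map (cc k p)) := EI.map _ (C_injective _ _) h
  have hC : ∀ (S : Subalgebra k D) (a : D), a ∈ S → (C a : MvPolynomial (Fin p) D) ∈ pc p S := by
    intro S a ha m
    rw [MvPolynomial.coeff_C]
    split_ifs
    · exact ha
    · exact S.zero_mem
  have hle : ∀ S : Subalgebra k D, S.map (cc k p) ≤ pc p S := by
    rintro S _ ⟨a, ha, rfl⟩
    exact hC S a ha
  have hsum : ∀ (f : MvPolynomial (Fin p) D), ∃ c : (Fin p →₀ ℕ) →₀ MvPolynomial (Fin p) D,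
      (∀ i, c i = C (f.coeff i)) ∧ f = c.sum fun i a => a * monomial i 1 := by
    intro f
    let f' : (Fin p →₀ ℕ) →₀ D := AddMonoidAlgebra.coeff f
    have hf' : ∀ i, f' i = f.coeff i := fun i => rfl
    refine ⟨f'.mapRange C (map_zero _), fun i => by rw [Finsupp.mapRange_apply, hf'], ?_⟩
    rw [Finsupp.sum_mapRange_index (fun i => zero_mul _)]
    conv_lhs => rw [f.as_sum]
    refine Finset.sum_congr rfl fun i _ => ?_
    rw [hf']
    change monomial i (f.coeff i) = C (f.coeff i) * monomial i 1
    rw [MvPolynomial.C_mul_monomial, mul_one]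
  refine (hcb k (MvPolynomial (Fin p) D) (R.map (cc k p)) (R'.map (cc k p)) (pc p R) (pc p R')
    h0.le (fun f hf m => h.le (hf m)) (hle R) (hle R') (Fin p →₀ ℕ)
    (fun i => monomial i 1) ?_ ?_ ?_ ?_).1 h0
  · intro i m
    rw [MvPolynomial.coeff_monomial]
    split_ifs
    · exact R.one_mem
    · exact R.zero_mem
  · intro f hf
    obtain ⟨c, hc, h1⟩ := hsum f
    exact ⟨c, fun i => by rw [hc]; exact ⟨_, hf i, rfl⟩, h1⟩
  · intro f hf
    obtain ⟨c, hc, h1⟩ := hsum f
    exact ⟨c, fun i => by rw [hc]; exact ⟨_, hf i, rfl⟩, h1⟩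
  · intro c hc h1
    ext i : 1
    obtain ⟨a, -, ha⟩ := hc i
    have h2 := congrArg (fun f => MvPolynomial.coeff i f) h1
    simp only [Finsupp.sum, MvPolynomial.coeff_sum, MvPolynomial.coeff_zero] at h2
    have h3 : ∀ j ∈ c.support, MvPolynomial.coeff i (c j * monomial j 1) =
        if j = i then a else 0 := by
      intro j _
      obtain ⟨a', -, ha'⟩ := hc j
      change C a' = c j at ha'
      rw [← ha', MvPolynomial.C_mul_monomial, mul_one, MvPolynomial.coeff_monomial]
      split_ifs with hji
      · subst hji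
        change C a = c j at ha
        rw [← ha] at ha'
        exact C_injective _ _ ha'
      · rfl
    rw [Finset.sum_congr rfl h3, Finset.sum_ite_eq'] at h2
    change C a = c i at ha
    by_cases hi : i ∈ c.support
    · rw [if_pos hi] at h2
      rw [← ha, h2, map_zero]
      rfl
    · rw [Finsupp.notMem_support_iff.1 hi]
      rfl

end pol

end Pool.Agent.W559.Et
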