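import Pool.Agent.W559.Et.La

set_option autoImplicit false
set_option linter.unusedSectionVars false

open MvPolynomial

universe u v w

namespace Pool.Agent.W559.Et

open Pool.Agent.W559.Mg

section deg

variable {K : Type u} [Field K] {G : Type} [AddCommGroup G]

/-- Independence of the powers of a homogeneous element of nonzero degree. -/
lemma ind_deg (δ : G →+ ℤ) (ν : G) (hν : δ ν ≠ 0) (c : ℕ →₀ ML K G)
    (hc : ∀ i d, (c i).coeff d ≠ 0 → δ d = 0)
    (h : (c.sum fun i a => a * (mo ν 1) ^ i) = 0) : c = 0 := by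
  classical
  ext i : 1
  apply ml_ext
  intro e
  rw [Finsupp.zero_apply, coeff_zero']
  by_contra hne
  have he := hc i e hne
  have h1 := congrArg (fun f : ML K G => f.coeff (i • ν + e)) h
  simp only [Finsupp.sum, coeff_sum', coeff_zero'] at h1
  have h2 : ∀ j ∈ c.support, (c j * mo ν (1 : K) ^ j).coeff (i • ν + e) =
      if j = i then (c i).coeff e else 0 := by
    intro j _
    rw [mo_pow, one_pow, mul_comm, coeff_mo_mul, one_mul]
    split_ifs with hji
    · subst hji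
      rw [add_sub_cancel_left]
    · by_contra hcon
      have h3 := hc j _ hcon
      rw [map_sub, map_add, map_nsmul, map_nsmul, he, add_zero, nsmul_eq_mul, nsmul_eq_mul,
        ← sub_mul] at h3
      rcases mul_eq_zero.1 h3 with h4 | h4
      · apply hji
        have h5 : (i : ℤ) = j := by linarith
        exact_mod_cast h5.symm
      · exact hν h4
  rw [Finset.sum_congr rfl h2, Finset.sum_ite_eq', if_pos] at h1
  · exact hne h1
  · rw [Finsupp.mem_support_iff]
    intro h0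
    rw [h0] at hne
    exact hne (coeff_zero' e)

end deg

section pz

variable {k K : Type u} [Field k] [Field K] [Algebra k K]

/-- The unit of the third direction. -/
noncomputable def zu (K : Type u) [Field K] : (ML K G3)ˣ where
  val := mo (dg 0 0 1) 1
  inv := mo (dg 0 0 (-1)) 1
  val_inv := by rw [mo_mul, dg_add, one_mul]; rfl
  inv_val := by rw [mo_mul, dg_add, one_mul]; rfl

lemma zp_zu (i : ℤ) : zp (zu K) i = mo (dg 0 0 i) 1 := by
  unfold zp
  induction i using Int.induction_on with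
  | zero => rw [zpow_zero]; rfl
  | succ i ih =>
    rw [zpow_add, zpow_one, Units.val_mul, ih]
    change mo _ 1 * mo (dg 0 0 1) 1 = _
    rw [mo_mul, dg_add, one_mul, add_zero]
  | pred i ih =>
    rw [sub_eq_add_neg, zpow_add, zpow_neg_one, Units.val_mul, ih]
    change mo _ 1 * mo (dg 0 0 (-1)) 1 = _
    rw [mo_mul, dg_add, one_mul, add_zero]

/-- The Laurent algebra in the third direction. -/
noncomputable def PZ (B : Subalgebra k K) : Subalgebra k (ML K G3) :=
  Algebra.adjoin k ((B.map (zr k K G3) : Set (ML K G3)) ∪ {mo (dg 0 0 1) 1, mo (dg 0 0 (-1)) 1})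

lemma PZ_b {B : Subalgebra k K} {a : K} (ha : a ∈ B) : mo 0 a ∈ PZ B :=
  Algebra.subset_adjoin (Or.inl ⟨a, ha, rfl⟩)

lemma PZ_z (B : Subalgebra k K) : mo (dg 0 0 1) 1 ∈ PZ B :=
  Algebra.subset_adjoin (Or.inr (Or.inl rfl))

lemma PZ_z' (B : Subalgebra k K) : mo (dg 0 0 (-1)) 1 ∈ PZ B :=
  Algebra.subset_adjoin (Or.inr (Or.inr rfl))

lemma PZ_zp (B : Subalgebra k K) (c : ℤ) : mo (dg 0 0 c) 1 ∈ PZ B := by
  have h1 := zpow_mem' (C := PZ B) (m := dg 0 0 1) (u := (1 : K)) (PZ_z B)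
    (by rw [inv_one]; exact PZ_z' B) c
  have h2 : c • dg 0 0 1 = dg 0 0 c := by
    unfold dg
    ext <;> simp
  rwa [one_zpow, h2] at h1

lemma PZ_mo {B : Subalgebra k K} {a : K} (ha : a ∈ B) (c : ℤ) : mo (dg 0 0 c) a ∈ PZ B := by
  have h1 := (PZ B).mul_mem (PZ_b ha) (PZ_zp B c)
  rwa [mo_mul, zero_add, mul_one] at h1

/-- The elements of a Laurent algebra. -/
lemma PZ_coeff {B : Subalgebra k K} {f : ML K G3} (hf : f ∈ PZ B) :
    ∀ d, f.coeff d ∈ B ∧ (f.coeff d ≠ 0 → co1 d = 0 ∧ co2 d = 0) := by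
  classical
  induction hf using Algebra.adjoin_induction with
  | mem x hx =>
    intro d
    have key : ∀ (e : G3) (a : K), a ∈ B → co1 e = 0 → co2 e = 0 →
        ((mo e a).coeff d ∈ B ∧ ((mo e a).coeff d ≠ 0 → co1 d = 0 ∧ co2 d = 0)) := by
      intro e a ha h1 h2
      by_cases hde : e = d
      · subst hde
        rw [coeff_mo_same]
        exact ⟨ha, fun _ => ⟨h1, h2⟩⟩
      · rw [coeff_mo_ne hde]
        exact ⟨B.zero_mem, fun h => absurd rfl h⟩
    rcases hx with ⟨a, ha, rfl⟩ | hx | hx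
    · exact key 0 a ha (map_zero _) (map_zero _)
    · rw [hx]; exact key _ _ B.one_mem rfl rfl
    · rw [Set.mem_singleton_iff.1 hx]; exact key _ _ B.one_mem rfl rfl
  | algebraMap r =>
    intro d
    rw [algebraMap_ML]
    by_cases hd : d = 0
    · subst hd
      rw [coeff_mo_same]
      exact ⟨B.algebraMap_mem r, fun _ => ⟨map_zero _, map_zero _⟩⟩
    · rw [coeff_mo_ne (Ne.symm hd)]
      exact ⟨B.zero_mem, fun h => absurd rfl h⟩
  | add x y _ _ hx hy =>
    intro d
    rw [coeff_add']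
    refine ⟨B.add_mem (hx d).1 (hy d).1, fun h => ?_⟩
    by_cases h1 : x.coeff d = 0
    · rw [h1, zero_add] at h
      exact (hy d).2 h
    · exact (hx d).2 h1
  | mul x y _ _ hx hy =>
    intro d
    rw [coeff_mul_sum]
    refine ⟨B.sum_mem fun a _ => B.mul_mem (hx a).1 (hy _).1, fun h => ?_⟩
    obtain ⟨a, -, ha⟩ := Finset.exists_ne_zero_of_sum_ne_zero h
    have h1 := (hx a).2 (left_ne_zero_of_mul ha)
    have h2 := (hy (d - a)).2 (right_ne_zero_of_mul ha)
    rw [map_sub, map_sub, h1.1, h1.2] at h2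
    constructor
    · linarith [h2.1]
    · linarith [h2.2]

lemma zr_injective : Function.Injective (zr k K G3) := fun _ _ h => mo_inj h

/-- Etale inclusions extend to the Laurent algebras. -/
lemma EI.pz (hcb : CbStm.{u}) {B0 B : Subalgebra k K} (h : EI B0 B) : EI (PZ B0) (PZ B) := by
  classical
  have h0 : EI (B0.map (zr k K G3)) (B.map (zr k K G3)) := EI.map _ zr_injective h
  have hd := fun (S : Subalgebra k K) (x : ML K G3) (hx : x ∈ PZ S) =>
    laur_dec (S.map (zr k K G3)) (zu K) (x := x) hx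
  have hle : ∀ S : Subalgebra k K, S.map (zr k K G3) ≤ PZ S := fun S x hx =>
    Algebra.subset_adjoin (Or.inl hx)
  refine (hcb k (ML K G3) _ _ _ _ h0.le ?_ (hle _) (hle _) ℤ (zp (zu K)) ?_ (hd B0) (hd B) ?_).1 h0
  · refine Algebra.adjoin_mono ?_
    exact Set.union_subset_union_left _ h0.le
  · intro i
    rw [zp_zu]
    exact PZ_zp _ i
  · intro c hc h1
    ext i : 1
    obtain ⟨a, -, ha⟩ := hc i
    have h2 := congrArg (fun f : ML K G3 => f.coeff (dg 0 0 i)) h1
    simp only [Finsupp.sum, coeff_sum', coeff_zero'] at h2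
    have h3 : ∀ j ∈ c.support, (c j * zp (zu K) j).coeff (dg 0 0 i) =
        if j = i then a else 0 := by
      intro j _
      obtain ⟨a', -, ha'⟩ := hc j
      rw [← ha', zp_zu]
      change (mo 0 a' * mo (dg 0 0 j) 1).coeff (dg 0 0 i) = _
      rw [mo_mul, zero_add, mul_one, coeff_mo]
      by_cases hji : j = i
      · subst hji
        rw [if_pos rfl, if_pos rfl]
        apply zr_injective (k := k)
        exact ha'.trans ha.symm
      · rw [if_neg hji, if_neg]
        intro h4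
        apply hji
        have h5 := congrArg co3 h4
        rwa [co3_dg, co3_dg] at h5
    rw [Finset.sum_congr rfl h3, Finset.sum_ite_eq'] at h2
    by_cases hi : i ∈ c.support
    · rw [if_pos hi] at h2
      rw [← ha, h2, map_zero]
      rfl
    · rw [Finsupp.notMem_support_iff.1 hi]
      rfl

end pz

section rf

variable {k K : Type u} [Field k] [Field K] [Algebra k K] (γ : K →ₐ[k] K) (r : ℕ)

lemma RF_s (B : Subalgebra k K) : sS K ∈ RF γ r B := Algebra.subset_adjoin (Or.inl (Or.inl rfl))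

lemma RF_z (B : Subalgebra k K) : mo (dg 0 0 1) 1 ∈ RF γ r B :=
  Algebra.subset_adjoin (Or.inl (Or.inr (Or.inl rfl)))

lemma RF_z' (B : Subalgebra k K) : mo (dg 0 0 (-1)) 1 ∈ RF γ r B :=
  Algebra.subset_adjoin (Or.inl (Or.inr (Or.inr rfl)))

lemma RF_d {B : Subalgebra k K} {a : K} (ha : a ∈ B) (j : ℕ) :
    mo (dg j 0 0) ((dl (γ ^ r))^[j] a) ∈ RF γ r B :=
  Algebra.subset_adjoin (Or.inr ⟨a, ha, j, rfl⟩)

lemma RF_b {B : Subalgebra k K} {a : K} (ha : a ∈ B) : mo 0 a ∈ RF γ r B := RF_d γ r ha 0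

lemma PZ_le_RF (B : Subalgebra k K) : PZ B ≤ RF γ r B := by
  unfold PZ
  rw [Algebra.adjoin_le_iff]
  rintro f (⟨a, ha, rfl⟩ | hf | hf)
  · exact RF_b γ r ha
  · rw [hf]; exact RF_z γ r B
  · rw [Set.mem_singleton_iff.1 hf]; exact RF_z' γ r B

lemma RF_mono {B B' : Subalgebra k K} (h : B ≤ B') : RF γ r B ≤ RF γ r B' := by
  refine Algebra.adjoin_mono (Set.union_subset_union_right _ ?_)
  rintro f ⟨a, ha, j, rfl⟩
  exact ⟨a, h ha, j, rfl⟩

/-- Stability of the Rees algebra. -/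
lemma RF_Dn (B : Subalgebra k K) :
    ∀ f ∈ RF γ r B, Dn (dg 1 0 0) (γ ^ r) f ∈ RF γ r B := by
  have hmo : ∀ d : G3, Dn (dg 1 0 0) (γ ^ r) (mo d 1) = 0 := by
    intro d
    have h1 : dl (γ ^ r) (1 : K) = 0 := by unfold dl; rw [map_one, sub_self]
    rw [Dn_mo, h1, mo_zero]
  refine Dn_stable _ rfl _ _ (RF_s γ r B) ?_
  rintro f ((hf | hf | hf) | ⟨a, ha, j, rfl⟩)
  · rw [hf]; unfold sS; rw [hmo]; exact Subalgebra.zero_mem _
  · rw [hf, hmo]; exact Subalgebra.zero_mem _
  · rw [Set.mem_singleton_iff.1 hf, hmo]; exact Subalgebra.zero_mem _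
  · rw [Dn_mo, dg_add, zero_add, ← Function.iterate_succ_apply' (dl (γ ^ r))]
    have h1 : (1 : ℤ) + j = ((j + 1 : ℕ) : ℤ) := by push_cast; ring
    rw [h1]
    exact RF_d γ r ha (j + 1)

lemma T1_pow (n : ℕ) : (mo (dg 1 0 0) (1 : K)) ^ n = mo (dg n 0 0) 1 := by
  rw [mo_pow, one_pow, dg_nsmul, mul_zero, mul_one]

/-- The Rees algebra of an etale extension. -/
theorem EI.rf (hcb : CbStm.{u}) (hext : ExtStm.{u}) {N : ℕ} (hN : 0 < N)
    (hγN : ∀ x : K, (⇑(γ ^ r))^[N] x = x) {B0 B : Subalgebra k K} (h : EI B0 B)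
    (h0 : ∀ x ∈ B0, γ x ∈ B0) (h1 : ∀ x ∈ B, γ x ∈ B) : EI (RF γ r B0) (RF γ r B) := by
  have hst : ∀ S : Subalgebra k K, (∀ x ∈ S, γ x ∈ S) → ∀ x ∈ S, (γ ^ r) x ∈ S := by
    intro S hS x hx
    rw [pow_app]
    have h2 : ∀ n : ℕ, γ^[n] x ∈ S := by
      intro n
      induction n with
      | zero => exact hx
      | succ n ih => rw [Function.iterate_succ_apply']; exact hS _ ih
    exact h2 r
  have hgP : ∀ S : Subalgebra k K, (∀ x ∈ S, γ x ∈ S) → ∀ x ∈ PZ S, gm G3 (γ ^ r) x ∈ PZ S := by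
    intro S hS
    have h2 : PZ S ≤ (PZ S).comap (gm G3 (γ ^ r)) := by
      conv_lhs => unfold PZ
      rw [Algebra.adjoin_le_iff]
      rintro f (⟨a, ha, rfl⟩ | hf | hf)
      · change gm G3 (γ ^ r) (mo 0 a) ∈ PZ S
        rw [gm_mo]
        exact PZ_b (hst S hS a ha)
      · rw [hf]
        change gm G3 (γ ^ r) (mo (dg 0 0 1) 1) ∈ PZ S
        rw [gm_mo, map_one]; exact PZ_z S
      · rw [Set.mem_singleton_iff.1 hf]
        change gm G3 (γ ^ r) (mo (dg 0 0 (-1)) 1) ∈ PZ S
        rw [gm_mo, map_one]; exact PZ_z' S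
    exact fun x hx => h2 hx
  have hTT : (mo (dg 1 0 0) (1 : K)) * sS K = 1 := by
    unfold sS; rw [mo_mul, dg_add, one_mul]; rfl
  have key := hext k (ML K G3) (gm G3 (γ ^ r)) N hN (PZ B0) (PZ B) (RF γ r B0) (h.pz hcb)
    (hgP B0 h0) (hgP B h1) (fun x _ => by
      apply ml_ext
      intro d
      rw [gm_iter_coeff, hγN]) (mo (dg 1 0 0) 1) (sS K) hTT (by rw [gm_mo, map_one])
    (fun c hc h2 => ind_deg co1 (dg (-1) 0 0) (by rw [co1_dg]; norm_num) c
      (fun i d hd => ((PZ_coeff (hc i) d).2 hd).1) h2)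
    (PZ_le_RF γ r B0) (RF_s γ r B0) ?_ 1 one_pos ?_
  · have heq : Algebra.adjoin k ((RF γ r B0 : Set (ML K G3)) ∪
        {f | ∃ w ∈ PZ B, ∃ j : ℕ, f = (dl (gm G3 (γ ^ r)))^[j] w *
          (mo (dg 1 0 0) 1) ^ (j * 1)}) = RF γ r B := by
      apply le_antisymm
      · rw [Algebra.adjoin_le_iff]
        rintro f (hf | ⟨w, hw, j, rfl⟩)
        · exact RF_mono γ r h.le hf
        · have h2 : ∀ j : ℕ, (Dn (dg 1 0 0) (γ ^ r))^[j] w ∈ RF γ r B := by
            intro j
            induction j with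
            | zero => exact PZ_le_RF γ r B hw
            | succ j ih => rw [Function.iterate_succ_apply']; exact RF_Dn γ r B _ ih
          have h3 : ∀ j : ℕ, (dl (gm G3 (γ ^ r)))^[j] w * (mo (dg 1 0 0) 1) ^ j =
              (Dn (dg 1 0 0) (γ ^ r))^[j] w := by
            intro j
            induction j with
            | zero => rw [pow_zero, mul_one]; rfl
            | succ j ih =>
              rw [Function.iterate_succ_apply' (Dn (dg 1 0 0) (γ ^ r)), ← ih,
                Function.iterate_succ_apply']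
              unfold Dn
              have h4 : (mo (dg 1 0 0) (1 : K)) ^ j ∈ fx (gm G3 (γ ^ r)) := by
                rw [mem_fx, map_pow, gm_mo, map_one]
              rw [mul_comm _ ((mo (dg 1 0 0) (1 : K)) ^ j), dl_fx_mul _ h4, pow_succ]
              ring
          rw [SetLike.mem_coe, mul_one, h3]
          exact h2 j
      · conv_lhs => unfold RF
        rw [Algebra.adjoin_le_iff]
        rintro f ((hf | hf | hf) | ⟨a, ha, j, rfl⟩)
        · rw [hf]; exact Algebra.subset_adjoin (Or.inl (RF_s γ r B0))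
        · rw [hf]; exact Algebra.subset_adjoin (Or.inl (RF_z γ r B0))
        · rw [Set.mem_singleton_iff.1 hf]; exact Algebra.subset_adjoin (Or.inl (RF_z' γ r B0))
        · refine Algebra.subset_adjoin (Or.inr ⟨mo 0 a, PZ_b ha, j, ?_⟩)
          rw [dl_iter_mo, mul_one, T1_pow, mo_mul, zero_add, mul_one]
    rw [heq] at key
    exact key
  · conv_lhs => unfold RF
    rw [Algebra.adjoin_le_iff]
    rintro f ((hf | hf | hf) | ⟨a, ha, j, rfl⟩)
    · rw [hf]; exact Algebra.subset_adjoin (Or.inr (Or.inr rfl))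
    · rw [hf]; exact Algebra.subset_adjoin (Or.inl (PZ_z B0))
    · rw [Set.mem_singleton_iff.1 hf]; exact Algebra.subset_adjoin (Or.inl (PZ_z' B0))
    · have h2 : (dl (γ ^ r))^[j] a ∈ B0 := dl_iter_mem (γ ^ r) (hst B0 h0) j ha
      have h3 : mo (dg j 0 0) ((dl (γ ^ r))^[j] a) = mo 0 ((dl (γ ^ r))^[j] a) *
          (mo (dg 1 0 0) 1) ^ j := by
        rw [T1_pow, mo_mul, zero_add, mul_one]
      have h4 : (mo (dg 1 0 0) (1 : K)) ∈ ((PZ B0 : Set (ML K G3)) ∪ {mo (dg 1 0 0) 1, sS K}) :=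
        Or.inr (Or.inl rfl)
      rw [h3]
      exact Subalgebra.mul_mem _ (Algebra.subset_adjoin (Or.inl (PZ_b h2)))
        (Subalgebra.pow_mem _ (Algebra.subset_adjoin h4) _)
  · intro f hf
    rw [pow_one]
    exact RF_Dn γ r B0 f hf

end rf

end Pool.Agent.W559.Et
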