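import Pool.Agent.W559.Et.Lb

set_option autoImplicit false
set_option linter.unusedSectionVars false

open MvPolynomial

universe u v w

namespace Pool.Agent.W559.Et

open Pool.Agent.W559.Mg

section rb

variable {k K : Type u} [Field k] [Field K] [Algebra k K]

/-- The properties of the base algebras of the second level. -/
structure RB (γ : K →ₐ[k] K) (p : ℕ) (R : Subalgebra k (ML K G3)) : Prop where
  s : sS K ∈ R
  g : ∀ f ∈ R, gm G3 γ f ∈ R
  D : ∀ f ∈ R, Dn (dg 1 0 0) (γ ^ p) f ∈ R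
  c : ∀ f ∈ R, ∀ d, f.coeff d ≠ 0 → co2 d = 0

/-- Support in the kernel of a homomorphism. -/
lemma supp_adjoin {G : Type} [AddCommGroup G] (δ : G →+ ℤ) (X : Set (ML K G))
    (hX : ∀ f ∈ X, ∀ d, f.coeff d ≠ 0 → δ d = 0) {f : ML K G} (hf : f ∈ Algebra.adjoin k X) :
    ∀ d, f.coeff d ≠ 0 → δ d = 0 := by
  classical
  induction hf using Algebra.adjoin_induction with
  | mem x hx => exact hX x hx
  | algebraMap r =>
    intro d hd
    rw [algebraMap_ML] at hd
    by_cases h0 : d = 0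
    · rw [h0, map_zero]
    · exact absurd (coeff_mo_ne (Ne.symm h0) _) hd
  | add x y _ _ hx hy =>
    intro d hd
    rw [coeff_add'] at hd
    by_cases h1 : x.coeff d = 0
    · rw [h1, zero_add] at hd
      exact hy d hd
    · exact hx d h1
  | mul x y _ _ hx hy =>
    intro d hd
    rw [coeff_mul_sum] at hd
    obtain ⟨a, -, ha⟩ := Finset.exists_ne_zero_of_sum_ne_zero hd
    have h1 := hx a (left_ne_zero_of_mul ha)
    have h2 := hy (d - a) (right_ne_zero_of_mul ha)
    rw [map_sub, h1, sub_zero] at h2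
    exact h2

lemma supp_mo {G : Type} [AddCommGroup G] (δ : G →+ ℤ) {e : G} (he : δ e = 0) (a : K) :
    ∀ d, (mo e a).coeff d ≠ 0 → δ d = 0 := by
  intro d hd
  by_cases h : e = d
  · rw [← h, he]
  · exact absurd (coeff_mo_ne h a) hd

lemma RF_supp (γ : K →ₐ[k] K) (r : ℕ) (B : Subalgebra k K) {f : ML K G3} (hf : f ∈ RF γ r B) :
    ∀ d, f.coeff d ≠ 0 → co2 d = 0 := by
  refine supp_adjoin co2 _ ?_ hf
  rintro f ((hf | hf | hf) | ⟨a, -, j, rfl⟩)
  · rw [hf]; exact supp_mo _ rfl _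
  · rw [hf]; exact supp_mo _ rfl _
  · rw [Set.mem_singleton_iff.1 hf]; exact supp_mo _ rfl _
  · exact supp_mo _ rfl _

lemma RF_gm (γ : K →ₐ[k] K) (r : ℕ) (B : Subalgebra k K) (hB : ∀ x ∈ B, γ x ∈ B) :
    ∀ f ∈ RF γ r B, gm G3 γ f ∈ RF γ r B := by
  have h1 : RF γ r B ≤ (RF γ r B).comap (gm G3 γ) := by
    conv_lhs => unfold RF
    rw [Algebra.adjoin_le_iff]
    rintro f ((hf | hf | hf) | ⟨a, ha, j, rfl⟩)
    · rw [hf]; change gm G3 γ (sS K) ∈ RF γ r B
      unfold sS; rw [gm_mo, map_one]; exact RF_s γ r B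
    · rw [hf]; change gm G3 γ _ ∈ RF γ r B; rw [gm_mo, map_one]; exact RF_z γ r B
    · rw [Set.mem_singleton_iff.1 hf]; change gm G3 γ _ ∈ RF γ r B
      rw [gm_mo, map_one]; exact RF_z' γ r B
    · change gm G3 γ _ ∈ RF γ r B
      have hcomm : ∀ (j : ℕ) (a : K), γ ((dl (γ ^ r))^[j] a) = (dl (γ ^ r))^[j] (γ a) := by
        intro j
        induction j with
        | zero => exact fun a => rfl
        | succ j ih =>
          intro a
          rw [Function.iterate_succ_apply, ih, Function.iterate_succ_apply]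
          congr 1
          unfold dl
          rw [map_sub]
          congr 1
          rw [pow_app, pow_app]
          exact (Function.iterate_succ_apply' γ r a).symm.trans (Function.iterate_succ_apply γ r a)
      rw [gm_mo, hcomm]
      exact RF_d γ r (hB a ha) j
  exact fun x hx => h1 hx

lemma RF_RB (γ : K →ₐ[k] K) (p : ℕ) (B : Subalgebra k K) (hB : ∀ x ∈ B, γ x ∈ B) :
    RB γ p (RF γ p B) where
  s := RF_s γ p B
  g := RF_gm γ p B hB
  D := RF_Dn γ p B
  c := fun _ hf => RF_supp γ p B hf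

end rb

section sig

variable {k K : Type u} [Field k] [Field K] [Algebra k K] {γ : K →ₐ[k] K} {p : ℕ}
  (hp : p.Prime) (hpk : (p : k) = 0)

lemma gs (γ : K →ₐ[k] K) : gm G3 γ (sS K) = sS K := by unfold sS; rw [gm_mo, map_one]

lemma ge_iter_C {D : Type u} [CommRing D] [Algebra k D] (g : D →ₐ[k] D) (p : ℕ) (s : D) (n : ℕ)
    (a : D) : (ge g p s)^[n] (C a) = C (g^[n] a) := by
  induction n with
  | zero => rfl
  | succ n ih => rw [Function.iterate_succ_apply', ih, ge_C, Function.iterate_succ_apply']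

lemma dl_iter_th {D : Type u} [CommRing D] [Algebra k D] (g : D →ₐ[k] D) (p : ℕ) (s : D)
    (hs : g s = s) (n i : ℕ) : (dl (ge g p s))^[n] (th p s i) = th p s (i + n) := by
  induction n with
  | zero => rfl
  | succ n ih => rw [Function.iterate_succ_apply', ih, dl_ge_th g p s hs]; rfl

include hp hpk in
lemma sig_th (i : ℕ) : (ge (gm G3 γ) p (sS K) ^ p) (th p (sS K) i) =
    th p (sS K) i + th p (sS K) (i + p) := by
  have h1 := dl_iter_p (ge (gm G3 γ) p (sS K)) hp (cast_p (k := k) hpk) (th p (sS K) i)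
  rw [dl_iter_th _ _ _ (gs γ)] at h1
  rw [pow_app, h1]
  ring

lemma sig_C (a : ML K G3) : (ge (gm G3 γ) p (sS K) ^ p) (C a) = C (gm G3 (γ ^ p) a) := by
  rw [pow_app, ge_iter_C, gm_pow, pow_app]

include hp hpk in
/-- Congruence of the automorphism of the first level. -/
lemma sig_cong {R : Subalgebra k (ML K G3)} (hR : RB γ p R) :
    ∀ f ∈ Rp p (sS K) R, ∃ f' ∈ Rp p (sS K) R,
      (ge (gm G3 γ) p (sS K) ^ p) f = f + C (sS K) * f' := by
  have hCs : C (sS K) ∈ Rp p (sS K) R := Algebra.subset_adjoin (Or.inl ⟨_, hR.s, rfl⟩)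
  intro f hf
  unfold Rp at hf
  induction hf using Algebra.adjoin_induction with
  | mem x hx =>
    rcases hx with ⟨a, ha, rfl⟩ | ⟨i, rfl⟩
    · refine ⟨C (Dn (dg 1 0 0) (γ ^ p) a), Algebra.subset_adjoin (Or.inl ⟨_, hR.D a ha, rfl⟩), ?_⟩
      rw [sig_C, gm_eq_Dn (γ ^ p) (dg 1 0 0), map_add, map_mul]
      rfl
    · rw [sig_th hp hpk]
      rcases Nat.eq_zero_or_pos i with hi | hi
      · refine ⟨1, Subalgebra.one_mem _, ?_⟩
        rw [hi, zero_add, th_p, mul_one]
      · refine ⟨0, Subalgebra.zero_mem _, ?_⟩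
        rw [th_gt p (sS K) (i := i + p) (by omega), mul_zero]
  | algebraMap r => exact ⟨0, Subalgebra.zero_mem _, by rw [AlgHom.commutes, mul_zero, add_zero]⟩
  | add x y _ _ hx hy =>
    obtain ⟨x', hx', h1⟩ := hx
    obtain ⟨y', hy', h2⟩ := hy
    exact ⟨x' + y', Subalgebra.add_mem _ hx' hy', by rw [map_add, h1, h2]; ring⟩
  | mul x y hx0 hy0 hx hy =>
    obtain ⟨x', hx', h1⟩ := hx
    obtain ⟨y', hy', h2⟩ := hy
    refine ⟨x' * y + x * y' + C (sS K) * (x' * y'), ?_, by rw [map_mul, h1, h2]; ring⟩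
    exact Subalgebra.add_mem _ (Subalgebra.add_mem _ (Subalgebra.mul_mem _ hx' hy0)
      (Subalgebra.mul_mem _ hx0 hy')) (Subalgebra.mul_mem _ hCs (Subalgebra.mul_mem _ hx' hy'))

include hp hpk in
lemma sig_iter (hγ : ∀ x : K, γ^[p * p] x = x) (R : Subalgebra k (ML K G3)) :
    ∀ f ∈ Rp p (sS K) R, (⇑(ge (gm G3 γ) p (sS K) ^ p))^[p] f = f := by
  set σ := ge (gm G3 γ) p (sS K) ^ p with hσ
  have hpow : ∀ (n : ℕ) f, (σ ^ n) f = (⇑σ)^[n] f := fun n f => pow_app σ n f
  intro f hf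
  rw [← hpow]
  unfold Rp at hf
  have hpD : ((p : ℕ) : MvPolynomial (Fin p) (ML K G3)) = 0 := cast_p (k := k) hpk
  have hσs : σ (C (sS K)) = C (sS K) := by
    rw [hσ, sig_C]; unfold sS; rw [gm_mo, map_one]
  induction hf using Algebra.adjoin_induction with
  | mem x hx =>
    rcases hx with ⟨a, ha, rfl⟩ | ⟨i, rfl⟩
    · rw [hσ, ← pow_mul, pow_app, ge_iter_C]
      congr 1
      apply ml_ext
      intro d
      rw [gm_iter_coeff, hγ]
    · rw [hpow]
      have h1 : ∀ n : ℕ, (⇑σ)^[n] (th p (sS K) i) = th p (sS K) i + n * th p (sS K) (i + p) := by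
        intro n
        induction n with
        | zero => simp
        | succ n ih =>
          have h2 : σ (th p (sS K) (i + p)) = th p (sS K) (i + p) := by
            rw [hσ, sig_th hp hpk, th_gt p (sS K) (i := i + p + p) (by have := hp.pos; omega),
              add_zero]
          rw [Function.iterate_succ_apply', ih, map_add, map_mul, map_natCast, h2, hσ,
            sig_th hp hpk]
          push_cast
          ring
      rw [h1, hpD, zero_mul, add_zero]
  | algebraMap r => rw [AlgHom.commutes]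
  | add x y _ _ hx hy => rw [map_add, hx, hy]
  | mul x y _ _ hx hy => rw [map_mul, hx, hy]

lemma Rp_th (R : Subalgebra k (ML K G3)) (i : ℕ) : th p (sS K) i ∈ Rp p (sS K) R :=
  Algebra.subset_adjoin (Or.inr ⟨i, rfl⟩)

lemma Rp_C {R : Subalgebra k (ML K G3)} {a : ML K G3} (ha : a ∈ R) :
    (C a : MvPolynomial (Fin p) (ML K G3)) ∈ Rp p (sS K) R :=
  Algebra.subset_adjoin (Or.inl ⟨a, ha, rfl⟩)

/-- Stability under the extended automorphism. -/
lemma Rp_ge {R : Subalgebra k (ML K G3)} (hR : RB γ p R) :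
    ∀ f ∈ Rp p (sS K) R, ge (gm G3 γ) p (sS K) f ∈ Rp p (sS K) R := by
  have h1 : Rp p (sS K) R ≤ (Rp p (sS K) R).comap (ge (gm G3 γ) p (sS K)) := by
    conv_lhs => unfold Rp
    rw [Algebra.adjoin_le_iff]
    rintro f (⟨a, ha, rfl⟩ | ⟨i, rfl⟩)
    · change ge (gm G3 γ) p (sS K) (C a) ∈ Rp p (sS K) R
      rw [ge_C]
      exact Rp_C (hR.g a ha)
    · change ge (gm G3 γ) p (sS K) (th p (sS K) i) ∈ Rp p (sS K) R
      rw [ge_th _ _ _ (gs γ)]
      exact Subalgebra.add_mem _ (Rp_th R i) (Rp_th R (i + 1))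
  exact fun f hf => h1 hf

/-- The constants of the second level. -/
noncomputable def WU (γ : K →ₐ[k] K) (p : ℕ) (R : Subalgebra k (ML K G3)) :
    Subalgebra k (MvPolynomial (Fin p) (ML K G3)) :=
  Rp p (sS K) R ⊓ fx (ge (gm G3 γ) p (sS K) ^ p)

lemma SU_eq (R : Subalgebra k (ML K G3)) : SU γ p R =
    S2 (ge (gm G3 γ) p (sS K)) p (C (mo (dg 0 1 0) 1)) (C (mo (dg 0 (-1) 0) 1)) (WU γ p R)
      (th p (sS K) 0) := rfl

lemma ge_comm (f : MvPolynomial (Fin p) (ML K G3)) :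
    (ge (gm G3 γ) p (sS K) ^ p) (ge (gm G3 γ) p (sS K) f) =
      ge (gm G3 γ) p (sS K) ((ge (gm G3 γ) p (sS K) ^ p) f) := by
  rw [pow_app, pow_app]
  exact (Function.iterate_succ_apply _ p f).symm.trans (Function.iterate_succ_apply' _ p f)

lemma WU_ge {R : Subalgebra k (ML K G3)} (hR : RB γ p R) :
    ∀ f ∈ WU γ p R, ge (gm G3 γ) p (sS K) f ∈ WU γ p R := by
  rintro f ⟨hf, hf'⟩
  refine ⟨Rp_ge hR f hf, ?_⟩
  rw [SetLike.mem_coe, mem_fx] at hf' ⊢
  rw [ge_comm, hf']

include hp hpk in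
lemma WU_th (R : Subalgebra k (ML K G3)) {i : ℕ} (hi : 0 < i) : th p (sS K) i ∈ WU γ p R := by
  refine ⟨Rp_th R i, ?_⟩
  rw [SetLike.mem_coe, mem_fx, sig_th hp hpk, th_gt p (sS K) (i := i + p) (by omega), add_zero]

lemma pc_supp {R : Subalgebra k (ML K G3)} (hR : RB γ p R) {f : MvPolynomial (Fin p) (ML K G3)}
    (hf : f ∈ Rp p (sS K) R) (m : Fin p →₀ ℕ) : f.coeff m ∈ R := by
  rw [Rp_eq p (sS K) R hR.s] at hf
  exact hf m

end sig

section ext

variable {k K : Type u} [Field k] [Field K] [Algebra k K] {γ : K →ₐ[k] K} {p : ℕ}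
  (hp : p.Prime) (hpk : (p : k) = 0)

include hp hpk in
/-- Etale extension of the constants of the second level. -/
theorem EI.wu (hcb : CbStm.{u}) (hdec : DecStm.{u}) (hγ : ∀ x : K, γ^[p * p] x = x)
    {R0 R : Subalgebra k (ML K G3)} (h : EI R0 R) (hR0 : RB γ p R0) (hR : RB γ p R) :
    EI (WU γ p R0) (WU γ p R) := by
  classical
  have hs0 : (C (sS K) : MvPolynomial (Fin p) (ML K G3)) ≠ 0 := by
    rw [Ne, map_eq_zero_iff C (C_injective _ _)]
    exact mo_ne_zero one_ne_zero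
  have hσs : (ge (gm G3 γ) p (sS K) ^ p) (C (sS K)) = C (sS K) := by
    rw [sig_C]; unfold sS; rw [gm_mo, map_one]
  have hσθ : (ge (gm G3 γ) p (sS K) ^ p) (th p (sS K) 0) = th p (sS K) 0 + C (sS K) := by
    rw [sig_th hp hpk, zero_add, th_p]
  have hdd := fun (S : Subalgebra k (ML K G3)) (hS : RB γ p S) =>
    hdec k (MvPolynomial (Fin p) (ML K G3)) p hp hpk (ge (gm G3 γ) p (sS K) ^ p)
    (Rp p (sS K) S) (C (sS K)) (th p (sS K) 0) hs0 (Rp_C hS.s) hσs (Rp_th S 0) hσθ
    (sig_cong hp hpk hS) (sig_iter hp hpk hγ S)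
  have hsum : ∀ c : Fin p → MvPolynomial (Fin p) (ML K G3),
      ((Finsupp.equivFunOnFinite.symm c).sum fun i a => a * th p (sS K) 0 ^ (i : ℕ)) =
        ∑ i, c i * th p (sS K) 0 ^ (i : ℕ) := by
    intro c
    rw [Finsupp.sum_fintype _ _ fun i => zero_mul _]
    rfl
  have hgen : ∀ (S : Subalgebra k (ML K G3)) (hS : RB γ p S), ∀ x ∈ Rp p (sS K) S,
      ∃ c : Fin p →₀ MvPolynomial (Fin p) (ML K G3), (∀ i, c i ∈ WU γ p S) ∧
        x = c.sum fun i a => a * th p (sS K) 0 ^ (i : ℕ) := by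
    intro S hS x hx
    obtain ⟨c, hc, h1⟩ := (hdd S hS).1 x hx
    refine ⟨Finsupp.equivFunOnFinite.symm c, fun i => ⟨(hc i).1, (hc i).2⟩, ?_⟩
    rw [hsum]
    exact h1
  have hle : Rp p (sS K) R0 ≤ Rp p (sS K) R := by
    refine Algebra.adjoin_mono (Set.union_subset_union_left _ ?_)
    exact Set.image_mono h.le
  have hE : EI (Rp p (sS K) R0) (Rp p (sS K) R) := by
    rw [Rp_eq p (sS K) R0 hR0.s, Rp_eq p (sS K) R hR.s]
    exact h.poly p hcb
  have hne : Nonempty (Fin p) := ⟨⟨0, hp.pos⟩⟩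
  refine (hcb k (MvPolynomial (Fin p) (ML K G3)) (WU γ p R0) (WU γ p R) (Rp p (sS K) R0)
    (Rp p (sS K) R) (inf_le_inf_right _ hle) hle inf_le_left inf_le_left (Fin p)
    (fun i => th p (sS K) 0 ^ (i : ℕ)) (fun i => Subalgebra.pow_mem _ (Rp_th R0 0) _)
    (hgen R0 hR0) (hgen R hR) ?_).2 hE
  intro c hc h1
  rw [Finsupp.sum_fintype _ _ fun i => zero_mul _] at h1
  ext i : 1
  exact (hdd R hR).2 (fun i => c i) (fun i => (hc i).2) h1 i

include hp hpk in
/-- Etale extension of the universal algebra of the second level. -/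
theorem EI.su (hcb : CbStm.{u}) (hdec : DecStm.{u}) (hext : ExtStm.{u})
    (hγ : ∀ x : K, γ^[p * p] x = x)
    {R0 R : Subalgebra k (ML K G3)} (h : EI R0 R) (hR0 : RB γ p R0) (hR : RB γ p R) :
    EI (SU γ p R0) (SU γ p R) := by
  classical
  set g := ge (gm G3 γ) p (sS K) with hg
  set T : MvPolynomial (Fin p) (ML K G3) := C (mo (dg 0 1 0) 1) with hT
  set T' : MvPolynomial (Fin p) (ML K G3) := C (mo (dg 0 (-1) 0) 1) with hT'
  have hTT : T * T' = 1 := by rw [hT, hT', ← map_mul, TT'_one, map_one]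
  have hgT : g T = T := by rw [hT, hg, ge_C, gm_mo_one]
  have hW := h.wu hp hpk hcb hdec hγ hR0 hR
  have hth : (dl g)^[p + 1] (th p (sS K) 0) = 0 := by
    rw [dl_iter_th _ _ _ (gs γ), th_gt p (sS K) (by omega)]
  have key := hext k (MvPolynomial (Fin p) (ML K G3)) g p hp.pos (WU γ p R0) (WU γ p R)
    (SU γ p R0) hW (WU_ge hR0) (WU_ge hR) (fun x hx => by
      rw [← pow_app]
      exact hx.2) T T' hTT hgT ?_ (fun w hw => S2_W g p T T' (WU γ p R0) _ hw)
    (S2_T' g p T T' (WU γ p R0) _) ?_ p hp.pos ?_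
  · have heq : Algebra.adjoin k ((SU γ p R0 : Set (MvPolynomial (Fin p) (ML K G3))) ∪
        {f | ∃ w ∈ WU γ p R, ∃ j : ℕ, f = (dl g)^[j] w * T ^ (j * p)}) = SU γ p R := by
      apply le_antisymm
      · rw [Algebra.adjoin_le_iff]
        rintro f (hf | ⟨w, hw, j, rfl⟩)
        · refine S2_le g p T T' _ _ (S2_T' g p T T' (WU γ p R) _) ?_ ?_ hf
          · intro w hw i
            exact S2_w g p T T' (WU γ p R) _ (hW.le hw) i
          · intro i hi
            exact S2_t g p T T' (WU γ p R) _ hi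
        · exact S2_w g p T T' (WU γ p R) _ hw j
      · refine S2_le g p T T' _ _ ?_ ?_ ?_
        · exact Algebra.subset_adjoin (Or.inl (S2_T' g p T T' (WU γ p R0) _))
        · intro w hw i
          exact Algebra.subset_adjoin (Or.inr ⟨w, hw, i, rfl⟩)
        · intro i hi
          exact Algebra.subset_adjoin (Or.inl (S2_t g p T T' (WU γ p R0) _ hi))
    rw [heq] at key
    exact key
  · intro c hc h1
    ext i : 1
    apply MvPolynomial.ext
    intro m
    let c' : ℕ →₀ ML K G3 := c.mapRange (fun f => f.coeff m) (MvPolynomial.coeff_zero m)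
    have hc' : ∀ i, c' i = (c i).coeff m := fun i => Finsupp.mapRange_apply
    have h2 : (c'.sum fun i a => a * (mo (dg 0 (-1) 0) 1) ^ i) = 0 := by
      rw [Finsupp.sum_mapRange_index (fun i => zero_mul _)]
      have h3 := congrArg (fun f => MvPolynomial.coeff m f) h1
      simp only [Finsupp.sum, MvPolynomial.coeff_sum, MvPolynomial.coeff_zero] at h3
      rw [Finsupp.sum, ← h3]
      refine Finset.sum_congr rfl fun i _ => ?_
      rw [hT', ← map_pow, mul_comm (c i), MvPolynomial.coeff_C_mul, mul_comm]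
    have h3 := ind_deg co2 (dg 0 (-1) 0) (by rw [co2_dg]; norm_num) c'
      (fun i d hd => by
        rw [hc'] at hd
        exact hR.c _ (pc_supp hR (hc i).1 m) d hd) h2
    rw [← hc', h3]
    simp
  · have hTm : T ∈ (((WU γ p R0 : Set (MvPolynomial (Fin p) (ML K G3)))) ∪ {T, T'}) :=
      Or.inr (Or.inl rfl)
    have hTm' : T' ∈ (((WU γ p R0 : Set (MvPolynomial (Fin p) (ML K G3)))) ∪ {T, T'}) :=
      Or.inr (Or.inr rfl)
    refine S2_le g p T T' _ _ (Algebra.subset_adjoin hTm') ?_ ?_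
    · intro w hw i
      exact Subalgebra.mul_mem _ (Algebra.subset_adjoin (Or.inl
        (dl_iter_mem g (WU_ge hR0) i hw))) (Subalgebra.pow_mem _ (Algebra.subset_adjoin hTm) _)
    · intro i hi
      rw [dl_iter_th _ _ _ (gs γ)]
      exact Subalgebra.mul_mem _ (Algebra.subset_adjoin (Or.inl
        (WU_th hp hpk R0 (by omega)))) (Subalgebra.pow_mem _ (Algebra.subset_adjoin hTm) _)
  · intro f hf
    exact S2_stable g p T T' (WU γ p R0) _ hTT hgT hth hf

end ext

end Pool.Agent.W559.Et
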