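import Pool.Agent.W559.Et.Lc
import Pool.Agent.W22.Jord559
import Pool.Agent.H920R2.Cy3

set_option autoImplicit false
set_option linter.unusedSectionVars false

open MvPolynomial TensorProduct

universe u v w

namespace Pool.Agent.W559.Et

open Pool.Agent.W559.Mg

section alg

/-- Etale extensions of domains are algebraic. -/
lemma alg_of_etale {R S : Type u} [CommRing R] [IsDomain R] [CommRing S]
    [Algebra R S] [Algebra.Etale R S] (s : S) : IsAlgebraic R s := by
  let F := FractionRing R
  have h1 : Module.Finite F (F ⊗[R] S) := Algebra.FormallyUnramified.finite_of_free F (F ⊗[R] S)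
  have h2 : IsAlgebraic F ((1 : F) ⊗ₜ[R] s) := (IsIntegral.of_finite F _).isAlgebraic
  have h3 : IsAlgebraic R ((1 : F) ⊗ₜ[R] s) := (IsFractionRing.isAlgebraic_iff R F _).2 h2
  have hflat : Module.Flat R S := inferInstance
  have hinj : Function.Injective (Algebra.TensorProduct.includeRight : S →ₐ[R] F ⊗[R] S) :=
    Algebra.TensorProduct.includeRight_injective (IsFractionRing.injective R F)
  exact (isAlgebraic_algHom_iff (Algebra.TensorProduct.includeRight : S →ₐ[R] F ⊗[R] S) hinj).1 h3

variable {k K : Type u} [Field k] [Field K] [Algebra k K]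

lemma EI.alg {B0 B : Subalgebra k K} (h : EI B0 B)
    (hfr : ∀ a : K, ∃ b ∈ B, ∃ c ∈ B, c ≠ 0 ∧ a = b / c) (a : K) : IsAlgebraic B0 a := by
  obtain ⟨h1, h2⟩ := h
  let _ : Algebra B0 B := (Subalgebra.inclusion h1).toRingHom.toAlgebra
  have _ : IsScalarTower B0 B K := IsScalarTower.of_algebraMap_eq fun r => rfl
  have h3 : Algebra.Etale B0 B := h2
  have h4 : ∀ b ∈ B, IsAlgebraic B0 (b : K) := by
    intro b hb
    exact (alg_of_etale (R := B0) (⟨b, hb⟩ : B)).algebraMap
  obtain ⟨b, hb, c, hc, -, rfl⟩ := hfr a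
  rw [div_eq_mul_inv]
  exact (h4 b hb).mul (h4 c hc).inv

end alg

section lin

variable {k : Type u} [Field k]

lemma sub_one_pow_sq {V : Type u} [AddCommGroup V] [Module k V] {p : ℕ} (hp : p.Prime)
    (hpk : (p : k) = 0) (T : Module.End k V) (hT : T ^ (p * p) = 1) :
    (T - 1) ^ (p * p) = 0 := by
  have hc : Commute (T - 1) (1 : Module.End k V) := Commute.one_right _
  have h1 := hc.add_pow_prime_eq hp
  have h2 : (p : Module.End k V) = 0 := by
    refine LinearMap.ext fun v => ?_
    rw [Module.End.natCast_apply, LinearMap.zero_apply, ← Nat.cast_smul_eq_nsmul k, hpk, zero_smul]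
  rw [sub_add_cancel, one_pow, h2, zero_mul, zero_mul, zero_mul, add_zero] at h1
  have h3 : (T - 1) ^ p = T ^ p - 1 := by rw [h1, add_sub_cancel_right]
  rw [pow_mul, h3]
  exact H920R2.sub_one_pow_eq_zero hp hpk (T ^ p) (by rw [← pow_mul, hT])

end lin

section coords

variable {k K : Type u} [Field k] [Field K] [Algebra k K]

/-- Etale coordinates generate. -/
lemma EI.of_coords {B : Subalgebra k K} {n : ℕ} (x : Fin n → B)
    (hx : ((aeval x : MvPolynomial (Fin n) k →ₐ[k] B).toRingHom).Etale) :
    Function.Injective (aeval (fun i => (x i : K)) : MvPolynomial (Fin n) k →ₐ[k] K) ∧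
      EI (aeval (fun i => (x i : K)) : MvPolynomial (Fin n) k →ₐ[k] K).range B := by
  classical
  let φ : MvPolynomial (Fin n) k →ₐ[k] B := aeval x
  have hφK : ∀ f, ((φ f : B) : K) = aeval (fun i => (x i : K)) f := by
    intro f
    have h1 : (B.val.comp φ) = aeval (fun i => (x i : K)) := by
      apply MvPolynomial.algHom_ext
      intro i
      rw [AlgHom.comp_apply, aeval_X, aeval_X]
      rfl
    exact congrArg (fun g => g f) h1
  have hinj : Function.Injective φ := by
    let _ : Algebra (MvPolynomial (Fin n) k) B := φ.toRingHom.toAlgebra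
    have h1 : Algebra.Etale (MvPolynomial (Fin n) k) B := hx
    have h2 : Module.Flat (MvPolynomial (Fin n) k) B := inferInstance
    intro a b hab
    by_contra hne
    have h3 : a - b ≠ 0 := sub_ne_zero.2 hne
    have h4 : IsSMulRegular B (a - b) :=
      Module.Flat.isSMulRegular_of_isRegular (IsRegular.of_ne_zero h3)
    have h5 : (a - b) • (1 : B) = (a - b) • (0 : B) := by
      rw [smul_zero]
      change φ (a - b) * 1 = 0
      rw [mul_one, map_sub, hab, sub_self]
    exact one_ne_zero (h4 h5)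
  have hinjK : Function.Injective
      (aeval (fun i => (x i : K)) : MvPolynomial (Fin n) k →ₐ[k] K) := by
    intro a b hab
    apply hinj
    apply Subtype.ext
    rw [hφK, hφK, hab]
  refine ⟨hinjK, ?_⟩
  have hle : (aeval (fun i => (x i : K)) : MvPolynomial (Fin n) k →ₐ[k] K).range ≤ B := by
    rintro _ ⟨f, rfl⟩
    change aeval (fun i => (x i : K)) f ∈ B
    rw [← hφK]
    exact (φ f).2
  refine ⟨hle, ?_⟩
  let e := AlgEquiv.ofInjective _ hinjK
  have h1 : (Subalgebra.inclusion hle).toRingHom = φ.toRingHom.comp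
      (e.symm : _ →+* MvPolynomial (Fin n) k) := by
    refine RingHom.ext fun y => ?_
    obtain ⟨f, rfl⟩ := e.surjective y
    apply Subtype.ext
    change aeval (fun i => (x i : K)) f = ((φ (e.symm (e f)) : B) : K)
    rw [e.symm_apply_apply, hφK]
  rw [h1]
  exact RingHom.Etale.stableUnderComposition _ _ (RingHom.Etale.of_bijective e.symm.bijective) hx

/-- The universal algebra of the second level is smooth, for an action which is linear in etale
coordinates. -/
theorem su_of_coords (hcb : CbStm.{u}) (hdec : DecStm.{u}) (hext : ExtStm.{u})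
    (hlin : LinStm.{u}) {γ : K →ₐ[k] K} {p : ℕ} (hp : p.Prime) (hpk : (p : k) = 0)
    (hγ : ∀ x : K, γ^[p * p] x = x) (B : Subalgebra k K) (hB : ∀ x ∈ B, γ x ∈ B)
    (hfr : ∀ a : K, ∃ b ∈ B, ∃ c ∈ B, c ≠ 0 ∧ a = b / c) {n : ℕ} (x : Fin n → B)
    (hx : ((aeval x : MvPolynomial (Fin n) k →ₐ[k] B).toRingHom).Etale)
    (T : Module.End k (Fin n → k)) (hT : T ^ (p * p) = 1)
    (hl : ∀ v : Fin n → k, γ (∑ i, v i • (x i : K)) = ∑ i, T v i • (x i : K)) :
    Algebra.Smooth k (SU γ p (RF γ p B)) := by
  classical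
  obtain ⟨hinj, hEI⟩ := EI.of_coords x hx
  set φ : MvPolynomial (Fin n) k →ₐ[k] K := aeval (fun i => (x i : K)) with hφ
  have hφl : ∀ v : Fin n → k, φ (H920R2.lf v) = ∑ i, v i • (x i : K) := by
    intro v
    rw [H920R2.lf_apply, map_sum]
    refine Finset.sum_congr rfl fun i _ => ?_
    rw [map_mul, hφ, aeval_X, aeval_C, Algebra.smul_def]
  set N : Module.End k (Fin n → k) := T - 1 with hN
  have hN0 : N ^ (p * p) = 0 := by
    have h1 : ((p : ℕ) : Module.End k (Fin n → k)) = 0 := by
      refine LinearMap.ext fun v => ?_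
      rw [Module.End.natCast_apply, LinearMap.zero_apply, ← Nat.cast_smul_eq_nsmul k, hpk,
        zero_smul]
    exact sub_one_pow_sq hp hpk T hT
  obtain ⟨β0, hβ0, l0, χ0, Y, hl0, hY, hNY, Bs, hBs⟩ :=
    Pool.Agent.W22.Jord559.main N 1 (by rw [mul_one, one_mul]) (p * p) hN0 1
      (by rw [Nat.cast_one]; exact one_ne_zero) (1 : k) IsPrimitiveRoot.one (one_pow 1)
  let β : Type u := ULift.{u} β0
  have hβ : Finite β := inferInstance
  let l : β → ℕ := fun b => l0 b.down
  let y : β → ℕ → K := fun b i => φ (H920R2.lf ((N ^ i) (Y b.down)))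
  have hdl : ∀ w, dl γ (φ (H920R2.lf w)) = φ (H920R2.lf (N w)) := by
    intro w
    unfold dl
    rw [hφl, hl, hφl, ← Finset.sum_sub_distrib]
    refine Finset.sum_congr rfl fun i _ => ?_
    rw [← sub_smul]
    rfl
  have hy0 : ∀ b i, l b ≤ i → y b i = 0 := by
    intro b i hi
    obtain ⟨e, rfl⟩ := Nat.exists_eq_add_of_le hi
    change φ (H920R2.lf ((N ^ (l0 b.down + e)) (Y b.down))) = 0
    rw [add_comm, pow_add, Module.End.mul_apply, hNY, map_zero, map_zero, map_zero]
  have hyd : ∀ b i, dl γ (y b i) = y b (i + 1) := by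
    intro b i
    change dl γ (φ (H920R2.lf ((N ^ i) (Y b.down)))) = _
    rw [hdl, ← Module.End.mul_apply, ← pow_succ']
  have hai : AlgebraicIndependent k fun q : Σ b, Fin (l b) => y q.1 q.2 := by
    have h1 : AlgebraicIndependent k fun q : Σ b, Fin (l0 b) => φ (H920R2.lf (Bs q)) := by
      have hE : ∀ v, Bs.equivFun.symm (Pi.single v 1) = Bs v := by
        intro v
        rw [Module.Basis.equivFun_symm_apply, Finset.sum_eq_single v]
        · rw [Pi.single_eq_same, one_smul]
        · intro w _ hw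
          rw [Pi.single_eq_of_ne hw, zero_smul]
        · intro h
          exact absurd (Finset.mem_univ v) h
      have h2 : (aeval fun q : Σ b, Fin (l0 b) => φ (H920R2.lf (Bs q)) :
          MvPolynomial (Σ b, Fin (l0 b)) k →ₐ[k] K) =
          φ.comp (H920R2.pme Bs.equivFun.symm :
            MvPolynomial (Σ b, Fin (l0 b)) k →ₐ[k] MvPolynomial (Fin n) k) := by
        apply algHom_ext
        intro i
        rw [aeval_X]
        change φ (H920R2.lf (Bs i)) = φ (H920R2.pme Bs.equivFun.symm (X i))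
        rw [H920R2.pme_apply, H920R2.pm_X]
        congr 2
        exact (hE i).symm
      change Function.Injective (aeval fun q : Σ b, Fin (l0 b) => φ (H920R2.lf (Bs q)) :
          MvPolynomial (Σ b, Fin (l0 b)) k →ₐ[k] K)
      rw [h2]
      exact hinj.comp (H920R2.pme Bs.equivFun.symm).injective
    have h2 := h1.comp (fun q : Σ b : β, Fin (l b) => (⟨q.1.down, q.2⟩ : Σ b, Fin (l0 b))) (by
      rintro ⟨⟨b⟩, i⟩ ⟨⟨b'⟩, i'⟩ h
      simp only [Sigma.mk.injEq] at h
      obtain ⟨rfl, h⟩ := h
      obtain rfl := eq_of_heq h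
      rfl)
    convert h2 using 1
    funext q
    change _ = φ (H920R2.lf (Bs _))
    rw [hBs]
  have hBpr : Bp k y = φ.range := by
    apply le_antisymm
    · unfold Bp
      rw [Algebra.adjoin_le_iff]
      rintro _ ⟨b, i, rfl⟩
      exact ⟨_, rfl⟩
    · have h1 : ∀ w, φ (H920R2.lf w) ∈ Bp k y := by
        intro w
        have h2 : Submodule.span k (Set.range Bs) ≤ (Subalgebra.toSubmodule (Bp k y)).comap
            (φ.toLinearMap ∘ₗ H920R2.lf) := by
          rw [Submodule.span_le]
          rintro _ ⟨q, rfl⟩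
          rw [hBs]
          exact Algebra.subset_adjoin ⟨ULift.up q.1, q.2, rfl⟩
        exact h2 (by rw [Bs.span_eq]; trivial)
      rintro _ ⟨f, rfl⟩
      change φ f ∈ Bp k y
      induction f using MvPolynomial.induction_on with
      | C a => rw [hφ, aeval_C]; exact Subalgebra.algebraMap_mem _ _
      | add f g hf hg => rw [map_add]; exact Subalgebra.add_mem _ hf hg
      | mul_X f i hf =>
        rw [map_mul]
        refine Subalgebra.mul_mem _ hf ?_
        have h3 := h1 (Pi.single i 1)
        have h4 : (H920R2.lf (Pi.single i (1 : k)) : MvPolynomial (Fin n) k) = X i := by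
          rw [H920R2.lf_apply, Finset.sum_eq_single i]
          · rw [Pi.single_eq_same, C_1, one_mul]
          · intro j _ hj
            rw [Pi.single_eq_of_ne hj, C_0, zero_mul]
          · intro h
            exact absurd (Finset.mem_univ i) h
        rwa [h4] at h3
  have hEI' : EI (Bp k y) B := by rw [hBpr]; exact hEI
  have hBpg : ∀ x ∈ Bp k y, γ x ∈ Bp k y := by
    have h1 : Bp k y ≤ (Bp k y).comap γ := by
      conv_lhs => unfold Bp
      rw [Algebra.adjoin_le_iff]
      rintro _ ⟨b, i, rfl⟩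
      change γ (y b i) ∈ Bp k y
      rw [eq_add_dl, hyd]
      exact Subalgebra.add_mem _ (Algebra.subset_adjoin ⟨b, i, rfl⟩)
        (Algebra.subset_adjoin ⟨b, i + 1, rfl⟩)
    exact fun x hx => h1 hx
  have hsm := hlin k K γ p hp hpk hγ β l y hy0 hyd (fun b => (hl0 b.down).2) hai
    (hEI'.alg hfr)
  have hγp : ∀ x : K, (⇑(γ ^ p))^[p] x = x := by
    intro x
    rw [← pow_app, ← pow_mul, pow_app, hγ]
  have hRF := hEI'.rf γ p hcb hext hp.pos hγp hBpg hB
  exact (hRF.su hp hpk hcb hdec hext hγ (RF_RB γ p _ hBpg) (RF_RB γ p _ hB)).smooth hsm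

end coords

end Pool.Agent.W559.Et
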