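import Pool.Agent.W559.Mg.V6
import Pool.Agent.H920R2.Gl3
import Pool.Agent.H920R2.Up1

/-!
Statements of the lemmas of the project Et (etale-locally linear actions of cyclic groups of order
`p ^ 2 * m`). Notation of `Pool.Agent.W559.Mg`.
-/

set_option autoImplicit false
set_option linter.unusedSectionVars false

open MvPolynomial AlgebraicGeometry CategoryTheory

universe u v w

namespace Pool.Agent.W559.Et

open Pool.Agent.W559.Mg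

/-- An etale inclusion of subalgebras. -/
def EI {k D : Type u} [Field k] [CommRing D] [Algebra k D] (P Q : Subalgebra k D) : Prop :=
  ∃ h : P ≤ Q, (Subalgebra.inclusion h).toRingHom.Etale

/-- Etale inclusions and common bases: base change and faithfully flat descent. -/
def CbStm : Prop := ∀ (k D : Type u) [Field k] [CommRing D] [Algebra k D]
  (F0 F E0 E : Subalgebra k D), F0 ≤ F → E0 ≤ E → F0 ≤ E0 → F ≤ E →
  ∀ (ι : Type) [Nonempty ι] (b : ι → D), (∀ i, b i ∈ E0) →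
  (∀ x ∈ E0, ∃ c : ι →₀ D, (∀ i, c i ∈ F0) ∧ x = c.sum fun i a => a * b i) →
  (∀ x ∈ E, ∃ c : ι →₀ D, (∀ i, c i ∈ F) ∧ x = c.sum fun i a => a * b i) →
  (∀ c : ι →₀ D, (∀ i, c i ∈ F) → (c.sum fun i a => a * b i) = 0 → c = 0) →
  (EI F0 F ↔ EI E0 E)

/-- The open and closed neighbourhood of the fixed points of an automorphism `g` in the
preimage of a closed set fixed by `g`, for an etale morphism. -/
def StrongStm : Prop := ∀ (R S : Type u) [CommRing R] [CommRing S] [Algebra R S]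
  [Algebra.Etale R S] (J : Ideal R) (g : S →+* S),
  (∀ r : R, g (algebraMap R S r) - algebraMap R S r ∈ J.map (algebraMap R S)) →
  ∀ (N : ℕ), 0 < N → (∀ b, g^[N] b = b) →
  ∃ c : S, g c = c ∧ (∀ b, c * (g b - b) ∈ J.map (algebraMap R S)) ∧
    c - 1 ∈ J.map (algebraMap R S) ⊔ Ideal.span (Set.range fun b => g b - b)

/-- Extension of the algebra `S0` (a Rees algebra over `P0` with parameter `T'`) to an etale
extension `P` of `P0`. -/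
def ExtStm : Prop := ∀ (k D : Type u) [Field k] [CommRing D] [Algebra k D] (γ : D →ₐ[k] D)
  (N : ℕ), 0 < N → ∀ (P0 P S0 : Subalgebra k D), EI P0 P → (∀ x ∈ P0, γ x ∈ P0) →
  (∀ x ∈ P, γ x ∈ P) → (∀ x ∈ P, γ^[N] x = x) →
  ∀ (T T' : D), T * T' = 1 → γ T = T →
  (∀ c : ℕ →₀ D, (∀ i, c i ∈ P) → (c.sum fun i a => a * T' ^ i) = 0 → c = 0) →
  P0 ≤ S0 → T' ∈ S0 → S0 ≤ Algebra.adjoin k ((P0 : Set D) ∪ {T, T'}) →
  ∀ (e : ℕ), 0 < e → (∀ f ∈ S0, T ^ e * dl γ f ∈ S0) →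
  EI S0 (Algebra.adjoin k ((S0 : Set D) ∪
    {f | ∃ w ∈ P, ∃ j : ℕ, f = (dl γ)^[j] w * T ^ (j * e)}))

/-- Descent of smoothness along a Kummer extension. -/
def TameStm : Prop := ∀ (k D : Type u) [Field k] [CommRing D] [IsDomain D] [Algebra k D]
  (M : ℕ), 0 < M → (M : k) ≠ 0 → ∀ ω : k, IsPrimitiveRoot ω M → ∀ (η : D →ₐ[k] D) (z z' : D),
  z * z' = 1 → η z = algebraMap k D ω * z → ∀ S : Subalgebra k D, (∀ f ∈ S, η f = f) →
  z ^ M ∈ S → z' ^ M ∈ S →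
  Algebra.Smooth k (Algebra.adjoin k ((S : Set D) ∪ {z, z'})) → Algebra.Smooth k S

/-- Smoothness of Laurent extensions. -/
def LaurStm : Prop := ∀ (k D : Type u) [Field k] [CommRing D] [IsDomain D] [Algebra k D]
  (S : Subalgebra k D) (z z' : D), z * z' = 1 →
  (∀ c : ℕ →₀ D, (∀ i, c i ∈ S) → (c.sum fun i a => a * z ^ i) = 0 → c = 0) →
  Algebra.Smooth k S → Algebra.Smooth k (Algebra.adjoin k ((S : Set D) ∪ {z, z'}))

/-- The structure of a twisted Artin-Schreier extension over its invariants. -/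
def DecStm : Prop := ∀ (k D : Type u) [Field k] [CommRing D] [IsDomain D] [Algebra k D]
  (p : ℕ), p.Prime → (p : k) = 0 → ∀ (σ : D →ₐ[k] D) (R : Subalgebra k D) (s θ : D), s ≠ 0 →
  s ∈ R → σ s = s → θ ∈ R → σ θ = θ + s → (∀ c ∈ R, ∃ c' ∈ R, σ c = c + s * c') →
  (∀ c ∈ R, σ^[p] c = c) →
  (∀ x ∈ R, ∃ c : Fin p → D, (∀ i, c i ∈ R ∧ σ (c i) = c i) ∧ x = ∑ i, c i * θ ^ (i : ℕ)) ∧
  (∀ c : Fin p → D, (∀ i, σ (c i) = c i) → ∑ i, c i * θ ^ (i : ℕ) = 0 → ∀ i, c i = 0)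

section at1

variable {k K : Type u} [Field k] [Field K] [Algebra k K] {G : Type} [AddCommGroup G]

/-- An atlas, by quotients by a torus of the spectra of the rings `C t ⊓ F`, of a model of the
field `Kf` which is proper in the sense that all valuation rings in `𝒱` have a centre. -/
structure PB (𝒱 : Set (ValuationSubring K)) (Kf : Subfield K) {𝒜 : Type} (W : 𝒜 → Set K)
    (F : Subalgebra k (ML K G)) (E : ℕ) {T : Type u} (C : T → Subalgebra k (ML K G))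
    (H : T → K) : Prop where
  H0 : ∀ t, H t ≠ 0
  HK : ∀ t, H t ∈ Kf
  gr : ∀ t, Gr (C t ⊓ F)
  aa : ∀ t, ∃ a, ∀ x ∈ W a, mo 0 x ∈ C t ⊓ F
  inF : ∀ t x, mo 0 x ∈ C t ⊓ F → x ∈ Kf
  Fi : ∀ (m : G) (a : K), a ≠ 0 → mo m a ∈ F → mo (-m) a⁻¹ ∈ F
  rt : ∀ t t', mo 0 (H t' / H t) ∈ C t ⊓ F
  gl : ∀ t t', ∀ f ∈ C t', ∃ n : ℕ, mo 0 (H t' / H t) ^ n * f ∈ C t
  cv : ∀ V ∈ 𝒱, ∃ t E' ψ, Nrm V E' ψ (C t)
  E0 : 0 < E
  un : ∀ t, Un E (C t ⊓ F)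
  gen : ∀ t, AddSubgroup.closure {m : G | ∃ a : K, a ≠ 0 ∧ mo m a ∈ C t ⊓ F} = ⊤

/-- A smooth atlas. -/
structure MB (𝒱 : Set (ValuationSubring K)) (Kf : Subfield K) {𝒜 : Type} (W : 𝒜 → Set K)
    (E : ℕ) {T : Type u} (C : T → Subalgebra k (ML K G)) (H : T → K) : Prop where
  pb : PB 𝒱 Kf W ⊤ E C H
  sm : ∀ t, Algebra.Smooth k (C t)

end at1

/-- Analogue of `Mg.modif` (file A4) for `PB`. -/
def ModifStm : Prop := ∀ (k K : Type u) [Field k] [Field K] [Algebra k K] (G : Type)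
  [AddCommGroup G] (𝒱 : Set (ValuationSubring K)) (Kf : Subfield K) (𝒜 : Type) (W : 𝒜 → Set K)
  (F : Subalgebra k (ML K G)) (E : ℕ) (T : Type u) [Finite T] (C : T → Subalgebra k (ML K G))
  (H : T → K), PB 𝒱 Kf W F E C H → ∀ (τ : G →+ ℤ) (S : T → Subalgebra k (ML K G)),
  (∀ t, S t ≤ C t) → (∀ t, Gr (S t ⊓ F)) →
  (∀ t m a, τ m ≤ 0 → mo m a ∈ C t ⊓ F → mo m a ∈ S t) →
  (∀ t t', ∀ f ∈ S t', ∃ n : ℕ, mo 0 (H t' / H t) ^ n * f ∈ S t) →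
  ∀ (J : T → Type u) [∀ t, Finite (J t)] (x : ∀ t, J t → K) (μ : ∀ t, J t → G) (L : ℕ), 0 < L →
  (∀ t j, x t j ≠ 0) → ∀ hxS : (∀ t j, mo (μ t j) (x t j) ∈ S t ⊓ F),
  (∀ t j, τ (μ t j) = L) →
  (∀ t (V : ValuationSubring K) E' (ψ' : G → V.ValueGroup), Nrm V E' ψ' (C t) →
      ∃ j E'' ψ'', Nrm V E'' ψ'' (S t) ∧ V.valuation (x t j) ^ E'' = ψ'' (μ t j)) →
  ∃ (N : ℕ) (u : (Σ t, J t) → K), (∀ p, u p ≠ 0 ∧ mo (E • μ p.1 p.2) (u p) ∈ C p.1 ⊓ F ∧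
      mo (-(E • μ p.1 p.2)) (u p)⁻¹ ∈ C p.1 ⊓ F) ∧
      PB 𝒱 Kf W F (E * L) (fun p : Σ t, J t => lc (S p.1) (mo (μ p.1 p.2) (x p.1 p.2))
        (hxS p.1 p.2).1) (fun p => H p.1 ^ N * (x p.1 p.2 ^ E / u p))

/-- Analogue of `Mg.level_step` (file T5) for `PB`. -/
def LevelStm : Prop := ∀ (k K : Type u) [Field k] [Field K] [Algebra k K] (G : Type)
  [AddCommGroup G] (𝒱 : Set (ValuationSubring K)) (Kf : Subfield K) (𝒜 : Type) (W : 𝒜 → Set K)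
  (γ : K →ₐ[k] K) (E : ℕ) (T : Type u) [Finite T] (C : T → Subalgebra k (ML K G))
  (H : T → K), PB 𝒱 Kf W (fx (gm G γ)) E C H → ∀ (τ : G →+ ℤ) (S : T → Subalgebra k (ML K G)),
  (∀ t, S t ≤ C t) → (∀ t, Gr (S t)) →
  (∀ t m a, τ m ≤ 0 → mo m a ∈ C t ⊓ fx (gm G γ) → mo m a ∈ S t) →
  (∀ t t', ∀ f ∈ S t', ∃ n : ℕ, mo 0 (H t' / H t) ^ n * f ∈ S t) →
  ∀ (p : ℕ), p.Prime → (p : k) = 0 → ∀ (σ : K →ₐ[k] K) (ν : G),
  (∀ x, γ (σ x) = σ (γ x)) → (∀ x, γ x = x → σ x = x) →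
  (∀ t, ∀ f ∈ S t, gm G γ f ∈ S t) → ∀ hDS : (∀ t, ∀ f ∈ S t, Dn ν σ f ∈ S t),
  (∀ t, mo (-ν) 1 ∈ S t) → (∀ t, ∀ f ∈ S t, (gm G σ)^[p] f = f) →
  ∀ (N : ℕ), 0 < N → (∀ t, ∀ f ∈ S t, (gm G γ)^[N] f = f) →
  ∀ (X : T → Set (ML K G)), (∀ t, ∀ y ∈ X t, ∃ d a, y = mo d a) →
  (∀ t, Algebra.adjoin k (X t) = S t) → (∀ t, (S t).FG) →
  (∀ t (Q : Ideal (S t)), Q.IsPrime → (∀ f : S t, (⟨Dn ν σ f, hDS t f f.2⟩ : S t) ∈ Q) →
      ∀ d a, ∀ hda : mo d a ∈ S t, mo d a ∈ X t → 0 < τ d → (⟨mo d a, hda⟩ : S t) ∈ Q) →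
  (∀ t, ∃ d a, a ≠ 0 ∧ 0 < τ d ∧ mo d a ∈ S t) →
  ∃ (J : T → Type u) (_ : ∀ t, Finite (J t)) (μ : ∀ t, J t → G) (x : ∀ t, J t → K)
      (φ : ∀ t, J t → G) (f : ∀ t, J t → K)
      (hm : ∀ t j, IsMark (S t) τ γ σ ν p (μ t j) (x t j) (φ t j) (f t j))
      (L N : ℕ) (u : (Σ t, J t) → K), (∀ t j, τ (μ t j) = L) ∧
      (∀ p, u p ≠ 0 ∧ mo (E • μ p.1 p.2) (u p) ∈ C p.1 ⊓ fx (gm G γ) ∧
        mo (-(E • μ p.1 p.2)) (u p)⁻¹ ∈ C p.1 ⊓ fx (gm G γ)) ∧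
      PB 𝒱 Kf W (fx (gm G γ)) (E * L) (fun p : Σ t, J t => lc (S p.1)
        (mo (μ p.1 p.2) (x p.1 p.2)) ((hm p.1 p.2).mem (hDS p.1)))
        (fun p => H p.1 ^ N * (x p.1 p.2 ^ E / u p))

/-- Analogue of `Mg.ma_of_pa` (file T5). -/
def OfPbStm : Prop := ∀ (k K : Type u) [Field k] [Field K] [Algebra k K] (G : Type)
  [AddCommGroup G] (𝒱 : Set (ValuationSubring K)) (Kf : Subfield K) (𝒜 : Type) (W : 𝒜 → Set K)
  (F : Subalgebra k (ML K G)) (E : ℕ) (T : Type u) (C : T → Subalgebra k (ML K G))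
  (H : T → K), PB 𝒱 Kf W F E C H → (∀ t, Algebra.Smooth k ↥(C t ⊓ F)) →
  MB 𝒱 Kf W E (fun t => C t ⊓ F) H

/-- Analogue of `Mg.ma_step` (file A7) for `MB`. -/
def StepStm : Prop := ∀ (k K : Type u) [Field k] [Field K] [Algebra k K] (G : Type)
  [AddCommGroup G] [IsDomain (ML K G)] (𝒱 : Set (ValuationSubring K)) (Kf : Subfield K)
  (𝒜 : Type) (W : 𝒜 → Set K) (T : Type u) [Finite T] (E : ℕ)
  (C : T → Subalgebra k (ML K (ℤ × G))) (H : T → K), MB 𝒱 Kf W E C H →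
  ∃ (T' : Type u) (_ : Finite T') (E' : ℕ) (C' : T' → Subalgebra k (ML K G)) (H' : T' → K),
    MB 𝒱 Kf W E' C' H'

/-- An atlas without gradings gives a projective model. -/
def ModelStm : Prop := ∀ (k K : Type u) [Field k] [Field K] [Algebra k K]
  (Kf : Subfield K) (𝒜 : Type) (W : 𝒜 → Set K) (T : Type u) [Finite T] (E : ℕ)
  (C : T → Subalgebra k (ML K Unit)) (H : T → K),
  MB {V | ∀ c : k, algebraMap k K c ∈ V} Kf W E C H →
  ∃ (I : Type u) (_ : Finite I) (z : I → K) (J : Set I), H920R2.ModelG k W Kf z J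

/-- An atlas without gradings over an affine base gives a resolution. -/
def AffStm : Prop := ∀ (k K A : Type u) [Field k] [Field K] [Algebra k K] [CommRing A]
  [IsDomain A] [Algebra k A] (g : A →ₐ[k] K), Function.Injective g → ∀ (Kf : Subfield K),
  (∀ x ∈ Kf, ∃ a b, g b ≠ 0 ∧ x = g a / g b) → ∀ (T : Type u) [Finite T] (E : ℕ)
  (C : T → Subalgebra k (ML K Unit)) (H : T → K),
  MB {V | ∀ a, g a ∈ V} Kf (fun _ : Unit => Set.range g) E C H →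
  H920R2.HasResolution (X := Spec (CommRingCat.of A))
    (Spec.map (CommRingCat.ofHom (algebraMap k A)))

section rees

variable {k K : Type u} [Field k] [Field K] [Algebra k K]

/-- The parameter of the first level. -/
noncomputable def sS (K : Type u) [Field K] : ML K G3 := mo (dg (-1) 0 0) 1

/-- The Rees algebra of the powers of `γ ^ r - 1`, with the torus of the third direction. -/
noncomputable def RF (γ : K →ₐ[k] K) (r : ℕ) (B : Subalgebra k K) : Subalgebra k (ML K G3) :=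
  Algebra.adjoin k ({sS K, mo (dg 0 0 1) 1, mo (dg 0 0 (-1)) 1} ∪
    {f | ∃ a ∈ B, ∃ j : ℕ, f = mo (dg j 0 0) ((dl (γ ^ r))^[j] a)})

/-- The polynomials over a subalgebra. -/
noncomputable def Rp {D : Type u} [CommRing D] [Algebra k D] (p : ℕ) (s : D)
    (R : Subalgebra k D) : Subalgebra k (MvPolynomial (Fin p) D) :=
  Algebra.adjoin k ((C '' (R : Set D)) ∪ {f | ∃ i, f = th p s i})

/-- The universal algebra of the second level. -/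
noncomputable def SU (γ : K →ₐ[k] K) (p : ℕ) (R : Subalgebra k (ML K G3)) :
    Subalgebra k (MvPolynomial (Fin p) (ML K G3)) :=
  S2 (ge (gm G3 γ) p (sS K)) p (C (mo (dg 0 1 0) 1)) (C (mo (dg 0 (-1) 0) 1))
    (Rp p (sS K) R ⊓ fx (ge (gm G3 γ) p (sS K) ^ p)) (th p (sS K) 0)

end rees

/-- Smoothness of the universal algebra of the second level in the linear case. -/
def LinStm : Prop := ∀ (k K : Type u) [Field k] [Field K] [Algebra k K] (γ : K →ₐ[k] K)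
  (p : ℕ), p.Prime → (p : k) = 0 → (∀ x : K, γ^[p * p] x = x) →
  ∀ (β : Type u) [Finite β] (m : β → ℕ) (y : β → ℕ → K),
  (∀ b i, m b ≤ i → y b i = 0) → (∀ b i, dl γ (y b i) = y b (i + 1)) → (∀ b, m b ≤ p * p) →
  (AlgebraicIndependent k fun q : Σ b, Fin (m b) => y q.1 q.2) →
  (∀ a : K, IsAlgebraic (Bp k y) a) → Algebra.Smooth k (SU γ p (RF γ p (Bp k y)))

/-- Smoothness of the algebra of the second level (analogue of `JD.smooth_S2`, file U6). -/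
def SecStm : Prop := ∀ (k K : Type u) [Field k] [Field K] [Algebra k K] (γ : K →ₐ[k] K)
  (p : ℕ), p.Prime → (p : k) = 0 → ∀ R : Subalgebra k (ML K G3), sS K ∈ R →
  (∀ f ∈ R, gm G3 γ f ∈ R) → Algebra.Smooth k (SU γ p R) →
  ∀ (x x' t : ML K G3) (hx : x ∈ R), gm G3 γ x = x → x * x' = 1 → t ∈ lc R x hx →
  (gm G3 γ ^ p) t = t + sS K →
  Algebra.Smooth k (S2 (gm G3 γ) p (mo (dg 0 1 0) 1) (mo (dg 0 (-1) 0) 1)
    (lc R x hx ⊓ fx (gm G3 γ ^ p)) t)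

end Pool.Agent.W559.Et
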