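import Pool.Agent.W559.Et.Stm

/-!
Statements of the lemmas of the project Et, second part.
-/

set_option autoImplicit false
set_option linter.unusedSectionVars false

open MvPolynomial AlgebraicGeometry CategoryTheory

universe u v w

namespace Pool.Agent.W559.Et

open Pool.Agent.W559.Mg

section

variable {k K : Type u} [Field k] [Field K] [Algebra k K]

/-- The hypotheses on the algebras of the first level: `R t` is the Rees algebra (without the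
second direction) of the chart `C t`. -/
structure R1D (γ : K →ₐ[k] K) (r : ℕ) {T : Type u} (C : T → Subalgebra k (ML K G3)) (H : T → K)
    (R : T → Subalgebra k (ML K G3)) : Prop where
  gr : ∀ t, Gr (R t)
  s : ∀ t, sS K ∈ R t
  g : ∀ t, ∀ f ∈ R t, gm G3 γ f ∈ R t
  D : ∀ t, ∀ f ∈ R t, Dn (dg 1 0 0) (γ ^ r) f ∈ R t
  c : ∀ t, ∀ f ∈ R t, ∀ d, f.coeff d ≠ 0 → co2 d = 0
  le : ∀ t, R t ≤ C t
  T : ∀ t, mo (dg 0 1 0) 1 ∈ C t ∧ mo (dg 0 (-1) 0) 1 ∈ C t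
  neg : ∀ t m a, co1 m ≤ 0 → co2 m = 0 → mo m a ∈ C t ⊓ fx (gm G3 γ) → mo m a ∈ R t
  gl : ∀ t t', ∀ f ∈ R t', ∃ n : ℕ, mo 0 (H t' / H t) ^ n * f ∈ R t
  fg : ∀ t, (R t).FG
  X : ∀ t, ∃ X : Set (ML K G3), (∀ y ∈ X, ∃ d a, y = mo d a) ∧ Algebra.adjoin k X = R t ∧
    ∀ (Q : Ideal (R t)), Q.IsPrime →
      (∀ f, ∀ hf : Dn (dg 1 0 0) (γ ^ r) f ∈ R t, f ∈ R t →
        (⟨Dn (dg 1 0 0) (γ ^ r) f, hf⟩ : R t) ∈ Q) →
      ∀ d a, ∀ hda : mo d a ∈ R t, mo d a ∈ X → 0 < co1 d → (⟨mo d a, hda⟩ : R t) ∈ Q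
  pos : ∀ t, ∃ d a, a ≠ 0 ∧ 0 < co1 d ∧ mo d a ∈ R t

end

/-- The atlas in the case of one level (analogue of `LD.ma_one`, file Mg/V4). -/
def OneStm : Prop := ∀ (k K : Type u) [Field k] [Field K] [Algebra k K] (γ : K →ₐ[k] K) (p : ℕ),
  p.Prime → (p : k) = 0 → (∀ x : K, γ^[p] x = x) → ∀ (𝒱 : Set (ValuationSubring K))
  (Kf : Subfield K) (𝒜 : Type) (W : 𝒜 → Set K) (E : ℕ) (T : Type u) [Finite T]
  (C : T → Subalgebra k (ML K G3)) (H : T → K), PB 𝒱 Kf W (fx (gm G3 γ)) E C H →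
  ∀ (R : T → Subalgebra k (ML K G3)), R1D γ 1 C H R → (∀ t, Algebra.Smooth k (R t)) →
  ∃ (T' : Type u) (_ : Finite T') (E' : ℕ) (C' : T' → Subalgebra k (ML K G3)) (H' : T' → K),
    MB 𝒱 Kf W E' C' H'

/-- The atlas in the case of two levels (analogue of `LD.ma_two`, files Mg/V5, Mg/V6). -/
def TwoStm : Prop := ∀ (k K : Type u) [Field k] [Field K] [Algebra k K] (γ : K →ₐ[k] K) (p : ℕ),
  p.Prime → (p : k) = 0 → (∀ x : K, γ^[p * p] x = x) → ∀ (𝒱 : Set (ValuationSubring K))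
  (Kf : Subfield K) (𝒜 : Type) (W : 𝒜 → Set K) (E : ℕ) (T : Type u) [Finite T]
  (C : T → Subalgebra k (ML K G3)) (H : T → K), PB 𝒱 Kf W (fx (gm G3 γ)) E C H →
  ∀ (R : T → Subalgebra k (ML K G3)), R1D γ p C H R →
  (∀ t (δ : G3) (x a : K) (hx : mo δ x ∈ R t), x ≠ 0 → γ x = x →
    mo (dg (-1) 0 0) a ∈ lc (R t) (mo δ x) hx → γ^[p] a = a + 1 →
    Algebra.Smooth k (S2 (gm G3 γ) p (mo (dg 0 1 0) 1) (mo (dg 0 (-1) 0) 1)
      (lc (R t) (mo δ x) hx ⊓ fx (gm G3 γ ^ p)) (mo (dg (-1) 0 0) a))) →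
  ∃ (T' : Type u) (_ : Finite T') (E' : ℕ) (C' : T' → Subalgebra k (ML K G3)) (H' : T' → K),
    MB 𝒱 Kf W E' C' H'

end Pool.Agent.W559.Et
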