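import Pool.Agent.W559.Et.Stm2

/-!
Statements of the lemmas of the project Et, third part: the base of the construction.
-/

set_option autoImplicit false
set_option linter.unusedSectionVars false

open MvPolynomial AlgebraicGeometry CategoryTheory

universe u v w

namespace Pool.Agent.W559.Et

open Pool.Agent.W559.Mg

section

variable {k K : Type u} [Field k] [Field K] [Algebra k K]

/-- The group: a wild part `γ` and a tame part `h`. -/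
structure GD (γ h : K →ₐ[k] K) (p M : ℕ) (ω : k) : Prop where
  pp : p.Prime
  pk : (p : k) = 0
  g : ∀ x, γ^[p * p] x = x
  M0 : 0 < M
  Mk : (M : k) ≠ 0
  om : IsPrimitiveRoot ω M
  hM : ∀ x, h^[M] x = x
  ho : ∀ j, 0 < j → j < M → ∃ x, h^[j] x ≠ x
  c : ∀ x, γ (h x) = h (γ x)

/-- An affine atlas. -/
structure AA (𝒱 : Set (ValuationSubring K)) (Kf : Subfield K) {𝒜 : Type} (W : 𝒜 → Set K)
    (γ h : K →ₐ[k] K) {T : Type u} (B : T → Subalgebra k K) (H : T → K) : Prop where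
  H0 : ∀ t, H t ≠ 0
  Hg : ∀ t, γ (H t) = H t
  Hh : ∀ t, h (H t) = H t
  g : ∀ t, ∀ x ∈ B t, γ x ∈ B t
  st : ∀ t, ∀ x ∈ B t, h x ∈ B t
  fr : ∀ t x, ∃ a ∈ B t, ∃ b ∈ B t, b ≠ 0 ∧ x = a / b
  rt : ∀ t t', H t' / H t ∈ B t
  gl : ∀ t t', ∀ x ∈ B t', ∃ n : ℕ, (H t' / H t) ^ n * x ∈ B t
  cv : ∀ V ∈ 𝒱, ∃ t, ∀ x ∈ B t, x ∈ V
  aa : ∀ t, ∃ a, ∀ x ∈ W a, x ∈ B t ∧ γ x = x ∧ h x = x
  kf : ∀ x, x ∈ Kf ↔ γ x = x ∧ h x = x

/-- The algebra of level zero. -/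
noncomputable def CB (h : K →ₐ[k] K) (ω : k) (B : Subalgebra k K) : Subalgebra k (ML K G3) :=
  Algebra.adjoin k {f | ∃ d : G3, ∃ a ∈ B, h a = algebraMap k K (ω ^ co3 d) * a ∧ f = mo d a}

/-- The algebra of the first level. -/
noncomputable def RW (γ h : K →ₐ[k] K) (r : ℕ) (ω : k) (B : Subalgebra k K) :
    Subalgebra k (ML K G3) :=
  Algebra.adjoin k ({sS K} ∪ {f | ∃ a ∈ B, ∃ c : ℤ, h a = algebraMap k K (ω ^ c) * a ∧
    ∃ j : ℕ, f = mo (dg j 0 c) ((dl (γ ^ r))^[j] a)})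

end

/-- The atlas of level zero. -/
def BaseStm : Prop := ∀ (k K : Type u) [Field k] [Field K] [Algebra k K] (γ h : K →ₐ[k] K)
  (p M : ℕ) (ω : k), GD γ h p M ω → ∀ (𝒱 : Set (ValuationSubring K)) (Kf : Subfield K)
  (𝒜 : Type) (W : 𝒜 → Set K) (T : Type u) [Finite T] (B : T → Subalgebra k K) (H : T → K),
  AA 𝒱 Kf W γ h B H → PB 𝒱 Kf W (fx (gm G3 γ)) M (fun t => CB h ω (B t)) H

/-- The properties of the algebras of the first level. -/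
def RwStm : Prop := ∀ (k K : Type u) [Field k] [Field K] [Algebra k K] (γ h : K →ₐ[k] K)
  (p M : ℕ) (ω : k), GD γ h p M ω → ∀ (𝒱 : Set (ValuationSubring K)) (Kf : Subfield K)
  (𝒜 : Type) (W : 𝒜 → Set K) (T : Type u) [Finite T] (B : T → Subalgebra k K) (H : T → K),
  AA 𝒱 Kf W γ h B H → ∀ r : ℕ, (∃ x, (γ ^ r) x ≠ x) → (∀ t, (RW γ h r ω (B t)).FG) →
  R1D γ r (fun t => CB h ω (B t)) H (fun t => RW γ h r ω (B t))

/-- Smoothness of the algebra of the first level. -/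
def RwSmStm : Prop := ∀ (k K : Type u) [Field k] [Field K] [Algebra k K] (γ h : K →ₐ[k] K)
  (p M : ℕ) (ω : k), GD γ h p M ω → ∀ B : Subalgebra k K, (∀ x ∈ B, γ x ∈ B) →
  (∀ x ∈ B, h x ∈ B) → ∀ r : ℕ, Algebra.Smooth k (RF γ r B) → Algebra.Smooth k (RW γ h r ω B)

/-- Smoothness of the algebra of the second level. -/
def SecWStm : Prop := ∀ (k K : Type u) [Field k] [Field K] [Algebra k K] (γ h : K →ₐ[k] K)
  (p M : ℕ) (ω : k), GD γ h p M ω → ∀ B : Subalgebra k K, (∀ x ∈ B, γ x ∈ B) →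
  (∀ x ∈ B, h x ∈ B) → Algebra.Smooth k (SU γ p (RF γ p B)) →
  ∀ (δ : G3) (x a : K) (hx : mo δ x ∈ RW γ h p ω B), x ≠ 0 → γ x = x →
    mo (dg (-1) 0 0) a ∈ lc (RW γ h p ω B) (mo δ x) hx → γ^[p] a = a + 1 →
    Algebra.Smooth k (S2 (gm G3 γ) p (mo (dg 0 1 0) 1) (mo (dg 0 (-1) 0) 1)
      (lc (RW γ h p ω B) (mo δ x) hx ⊓ fx (gm G3 γ ^ p)) (mo (dg (-1) 0 0) a))

/-- Smoothness of the algebra of level zero. -/
def CbSmStm : Prop := ∀ (k K : Type u) [Field k] [Field K] [Algebra k K] (γ h : K →ₐ[k] K)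
  (p M : ℕ) (ω : k), GD γ h p M ω → ∀ B : Subalgebra k K,
  (∀ x ∈ B, h x ∈ B) → Algebra.Smooth k B → Algebra.Smooth k (CB h ω B)

/-- The construction. -/
def FinStm : Prop := ∀ (k K : Type u) [Field k] [Field K] [Algebra k K] (γ h : K →ₐ[k] K)
  (p M : ℕ) (ω : k), GD γ h p M ω → ∀ (𝒱 : Set (ValuationSubring K)) (Kf : Subfield K)
  (𝒜 : Type) (W : 𝒜 → Set K) (T : Type u) [Finite T] (B : T → Subalgebra k K) (H : T → K),
  AA 𝒱 Kf W γ h B H → (∀ t, Algebra.Smooth k (B t)) →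
  ((∀ x, γ^[p] x = x) → ∀ t, Algebra.Smooth k (RF γ 1 (B t))) →
  ((∃ x, γ^[p] x ≠ x) → ∀ t, Algebra.Smooth k (RF γ p (B t)) ∧
    Algebra.Smooth k (SU γ p (RF γ p (B t)))) →
  ∃ (T' : Type u) (_ : Finite T') (E' : ℕ) (C' : T' → Subalgebra k (ML K Unit)) (H' : T' → K),
    MB 𝒱 Kf W E' C' H'

end Pool.Agent.W559.Et
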