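import Pool.Agent.W559.Et.Stm3
import Pool.Agent.H920R2.Cy6

/-!
Statements of the lemmas of the project Et, fourth part: actions which are linear in etale
coordinates near their fixed points.
-/

set_option autoImplicit false
set_option linter.unusedSectionVars false

open MvPolynomial AlgebraicGeometry CategoryTheory TensorProduct

universe u v w

namespace Pool.Agent.W559.Et

open Pool.Agent.W559.Mg

section

variable {k K : Type u} [Field k] [Field K] [Algebra k K]

/-- The endomorphism `σ` is linear in etale coordinates near its fixed points on `Spec B`. -/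
def LL (σ : K →ₐ[k] K) (B : Subalgebra k K) : Prop :=
  ∀ q : Ideal B, q.IsPrime → (∀ c, c ∈ B → ∀ h : σ c - c ∈ B, (⟨σ c - c, h⟩ : B) ∈ q) →
    ∃ (f : K) (hf : f ∈ B), (⟨f, hf⟩ : B) ∉ q ∧ σ f = f ∧
      ∃ (m : ℕ) (x : Fin m → lc B f hf) (T : Module.End k (Fin m → k)),
        ((aeval x : MvPolynomial (Fin m) k →ₐ[k] lc B f hf).toRingHom).Etale ∧
        ∀ v : Fin m → k, σ (∑ i, v i • (x i : K)) = ∑ i, T v i • (x i : K)

end

/-- Permutations of the factors of a power of a smooth variety are linear in etale coordinates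
near their fixed points (part of the proof of `H920R2.smooth_RS_TT`, file Cy6). -/
def PermStm : Prop := ∀ (k K L : Type u) [Field k] [Field K] [Algebra k K] [Field L]
  [Algebra k L] (n : ℕ) (e : Fin n → K →ₐ[k] L) (g : (⨂[k] _ : Fin n, K) →ₐ[k] L),
  (∀ i x, g (PiTensorProduct.singleAlgHom (R := k) (A := fun _ : Fin n => K) i x) = e i x) →
  Function.Injective g → ∀ (τ : L →ₐ[k] L) (π : Equiv.Perm (Fin n)),
  (∀ i x, τ (e i x) = e (π i) x) → ∀ A : Subalgebra k K, Algebra.Smooth k A →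
  LL τ (H920R2.TT e fun _ => A)

/-- Smoothness of the Rees algebra of the first level (compare `H920R2.smooth_RS`). -/
def Crit1Stm : Prop := ∀ (k K : Type u) [Field k] [Field K] [Algebra k K] (γ : K →ₐ[k] K)
  (p : ℕ), p.Prime → (p : k) = 0 → ∀ r : ℕ, (∀ x : K, (⇑(γ ^ r))^[p] x = x) →
  ∀ B : Subalgebra k K, (∀ x ∈ B, γ x ∈ B) → (∀ x : K, ∃ a ∈ B, ∃ b ∈ B, b ≠ 0 ∧ x = a / b) →
  Algebra.Smooth k B → LL (γ ^ r) B → Algebra.Smooth k (RF γ r B)

/-- Smoothness of the universal algebra of the second level. -/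
def Crit2Stm : Prop := ∀ (k K : Type u) [Field k] [Field K] [Algebra k K] (γ : K →ₐ[k] K)
  (p : ℕ), p.Prime → (p : k) = 0 → (∀ x : K, γ^[p * p] x = x) →
  ∀ B : Subalgebra k K, (∀ x ∈ B, γ x ∈ B) → (∀ x : K, ∃ a ∈ B, ∃ b ∈ B, b ≠ 0 ∧ x = a / b) →
  Algebra.Smooth k (RF γ p B) → LL γ B → Algebra.Smooth k (SU γ p (RF γ p B))

/-- The construction for actions whose wild part is linear in etale coordinates near the fixed
points. -/
def MainStm : Prop := ∀ (k K : Type u) [Field k] [Field K] [Algebra k K] (γ h : K →ₐ[k] K)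
  (p M : ℕ) (ω : k), GD γ h p M ω → ∀ (𝒱 : Set (ValuationSubring K)) (Kf : Subfield K)
  (𝒜 : Type) (W : 𝒜 → Set K) (T : Type u) [Finite T] (B : T → Subalgebra k K) (H : T → K),
  AA 𝒱 Kf W γ h B H → (∀ t, Algebra.Smooth k (B t)) → (∀ t, LL γ (B t)) →
  (∀ t, LL (γ ^ p) (B t)) →
  ∃ (T' : Type u) (_ : Finite T') (E' : ℕ) (C' : T' → Subalgebra k (ML K Unit)) (H' : T' → K),
    MB 𝒱 Kf W E' C' H'

end Pool.Agent.W559.Et
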