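import Pool.Agent.W559.Et.Stm4
import Pool.Agent.H920R2.Cy11

/-!
Statements of the lemmas of the project Et, fifth part: the applications.
-/

set_option autoImplicit false
set_option linter.unusedSectionVars false

open MvPolynomial AlgebraicGeometry CategoryTheory TensorProduct

universe u v w

namespace Pool.Agent.W559.Et

open Pool.Agent.W559.Mg

/-- The endomorphism `ρ` of a domain `B` is linear in etale coordinates near its fixed points:
for every prime ideal `q` with `ρ b - b ∈ q` for all `b` there are an element `f` outside `q`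
fixed by `ρ` and etale coordinates `y i / f ^ N` on `Spec B[1 / f]` such that the linear span of
the `y i` is stable under `ρ`. -/
def LocLin {k B : Type u} [Field k] [CommRing B] [Algebra k B] (ρ : B →ₐ[k] B) : Prop :=
  ∀ q : Ideal B, q.IsPrime → (∀ b, ρ b - b ∈ q) →
    ∃ f : B, f ∉ q ∧ ρ f = f ∧ ∃ (m N : ℕ) (y : Fin m → B),
      ((aeval fun i => algebraMap B (Localization.Away f) (y i) *
          IsLocalization.Away.invSelf f ^ N :
        MvPolynomial (Fin m) k →ₐ[k] Localization.Away f).toRingHom).Etale ∧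
      ∀ i, ρ (y i) ∈ Submodule.span k (Set.range y)

/-- The wild and the tame part of an automorphism of finite order. -/
def GrpStm : Prop := ∀ (k K : Type u) [Field k] [Field K] [Algebra k K] (τ : K →ₐ[k] K)
  (p m : ℕ), p.Prime → (p : k) = 0 → (m : k) ≠ 0 → (∃ ζ : k, IsPrimitiveRoot ζ m) →
  (∀ x, τ^[p * p * m] x = x) →
  ∃ (γ h : K →ₐ[k] K) (M : ℕ) (ω : k) (a b c : ℕ), GD γ h p M ω ∧ γ = τ ^ (m * a) ∧
    τ ^ m = γ ^ c ∧ h = τ ^ b ∧ (∀ x, (γ x = x ∧ h x = x) ↔ τ x = x) ∧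
    ∀ B : Subalgebra k K, (∀ x ∈ B, τ x ∈ B) → LL (τ ^ m) B → LL (τ ^ (m * p)) B →
      LL γ B ∧ LL (γ ^ p) B

/-- The affine atlas of a power of a smooth projective variety (compare `H920R2.model_perm`,
file Cy11). -/
def PowStm : Prop := ∀ (k K L : Type u) [Field k] [Field K] [Algebra k K] [Field L] [Algebra k L]
  (m n : ℕ) (z : Fin (m + 1) → K), (∀ i, z i ≠ 0) →
  (∀ i, Algebra.Smooth k (H920R2.AZ k z i)) →
  IntermediateField.adjoin k (Set.range fun j => z j / z 0) = ⊤ →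
  ∀ (e : Fin n → K →ₐ[k] L) (g : (⨂[k] _ : Fin n, K) →ₐ[k] L),
  (∀ i x, g (PiTensorProduct.singleAlgHom (R := k) (A := fun _ : Fin n => K) i x) = e i x) →
  Function.Injective g → (∀ x : L, ∃ a b, g b ≠ 0 ∧ x = g a / g b) →
  ∀ (γ h : L →ₐ[k] L) (π π' : Equiv.Perm (Fin n)), (∀ i x, γ (e i x) = e (π i) x) →
  (∀ i x, h (e i x) = e (π' i) x) → ∀ (p M : ℕ) (ω : k), GD γ h p M ω →
  ∀ Kf : Subfield L, (∀ x, x ∈ Kf ↔ γ x = x ∧ h x = x) →
  ∃ (N : ℕ) (W : Fin N → Set L)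
    (_ : ∀ a, ∀ x ∈ Kf, ∃ y ∈ W a, ∃ y' ∈ W a, y' ≠ 0 ∧ x = y / y')
    (B : ULift.{u} (Fin N) → Subalgebra k L) (H : ULift.{u} (Fin N) → L),
    AA {V | ∀ c : k, algebraMap k L c ∈ V} Kf W γ h B H ∧ (∀ t, Algebra.Smooth k (B t)) ∧
    (∀ t, LL γ (B t)) ∧ ∀ t, LL (γ ^ p) (B t)

/-- The affine case. -/
def AffMainStm : Prop := ∀ (k B : Type u) [Field k] [CommRing B] [IsDomain B] [Algebra k B],
  Algebra.Smooth k B → ∀ (σ : B ≃ₐ[k] B) (p m : ℕ), p.Prime → (p : k) = 0 → (m : k) ≠ 0 →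
  (∃ ζ : k, IsPrimitiveRoot ζ m) → (∀ b, σ^[p * p * m] b = b) →
  LocLin ((σ : B →ₐ[k] B) ^ m) → LocLin ((σ : B →ₐ[k] B) ^ (m * p)) →
  H920R2.HasResolution (X := Spec (CommRingCat.of (H920R2.fixedAlg σ)))
    (Spec.map (CommRingCat.ofHom (algebraMap k (H920R2.fixedAlg σ))))

/-- Permutations of the factors of a power of a smooth affine variety. -/
def AffPermStm : Prop := ∀ (k A : Type u) [Field k] [CommRing A] [IsDomain A] [Algebra k A]
  (n : ℕ) [IsDomain (⨂[k] _ : Fin n, A)], Algebra.Smooth k A →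
  ∀ (σ : (⨂[k] _ : Fin n, A) ≃ₐ[k] (⨂[k] _ : Fin n, A)) (π : Equiv.Perm (Fin n)),
  (∀ i a, σ (PiTensorProduct.singleAlgHom (R := k) (A := fun _ : Fin n => A) i a) =
      PiTensorProduct.singleAlgHom (R := k) (A := fun _ : Fin n => A) (π i) a) →
  LocLin (σ : (⨂[k] _ : Fin n, A) →ₐ[k] (⨂[k] _ : Fin n, A))

end Pool.Agent.W559.Et
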